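import Pool.Agent.Lib.MP_97fe03_al.Growth

/-!
Koszul chains, relative exactness, the toggle lemma.
-/

set_option autoImplicit false
set_option linter.unusedSectionVars false

namespace Pool.Agent.Lib.MP_97fe03_al

open Finset

variable {V : Type*} [LinearOrder V] [Fintype V] {K : Type*} [Field K]

/-- The sign of `j` relative to `ρ`. -/
def sg (K : Type*) [Field K] (j : V) (ρ : Finset V) : K := (-1) ^ (ρ.filter (· < j)).card

lemma sg_mul_self (j : V) (ρ : Finset V) : sg K j ρ * sg K j ρ = 1 := by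
  unfold sg
  rw [← mul_pow]; simp

lemma sg_ne_zero (j : V) (ρ : Finset V) : sg K j ρ ≠ 0 := by
  intro h
  have := sg_mul_self (K := K) j ρ
  rw [h, mul_zero] at this
  exact zero_ne_one this

lemma sg_insert_lt {j k : V} {ρ : Finset V} (hk : k ∉ ρ) (h : k < j) :
    sg K j (insert k ρ) = - sg K j ρ := by
  unfold sg
  rw [filter_insert, if_pos h, card_insert_of_notMem (fun h' => hk (mem_filter.mp h').1), pow_succ]
  ring

lemma sg_insert_not_lt {j k : V} {ρ : Finset V} (h : ¬ k < j) :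
    sg K j (insert k ρ) = sg K j ρ := by
  unfold sg
  rw [filter_insert, if_neg h]

lemma sg_anti {j k : V} {ρ : Finset V} (hj : j ∉ ρ) (hk : k ∉ ρ) (hne : j ≠ k) :
    sg K j (insert k ρ) * sg K k (insert j ρ) = - (sg K j ρ * sg K k ρ) := by
  rcases lt_or_gt_of_ne hne with h | h
  · rw [sg_insert_lt hj h, sg_insert_not_lt (not_lt.mpr h.le)]; ring
  · rw [sg_insert_lt hk h, sg_insert_not_lt (not_lt.mpr h.le)]; ring

lemma sg_anti' {j k : V} {ρ : Finset V} (hj : j ∉ ρ) (hk : k ∉ ρ) (hne : j ≠ k) :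
    sg K j ρ * sg K k (insert j ρ) = - (sg K k ρ * sg K j (insert k ρ)) := by
  rcases lt_or_gt_of_ne hne with h | h
  · rw [sg_insert_lt hj h, sg_insert_not_lt (not_lt.mpr h.le)]; ring
  · rw [sg_insert_lt hk h, sg_insert_not_lt (not_lt.mpr h.le)]; ring

/-- The Koszul differential on coefficient functions. -/
def bd : (Finset V → K) →ₗ[K] (Finset V → K) where
  toFun z := fun ρ => ∑ j ∈ ρᶜ, sg K j ρ * z (insert j ρ)
  map_add' z w := by
    funext ρ
    simp only [Pi.add_apply, mul_add, sum_add_distrib]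
  map_smul' a z := by
    funext ρ
    simp only [Pi.smul_apply, smul_eq_mul, RingHom.id_apply, mul_sum]
    exact sum_congr rfl fun j _ => by ring

lemma bd_apply (z : Finset V → K) (ρ : Finset V) :
    bd z ρ = ∑ j ∈ ρᶜ, sg K j ρ * z (insert j ρ) := rfl

/-- Left multiplication by the basis vector of `x`. -/
def ext (x : V) : (Finset V → K) →ₗ[K] (Finset V → K) where
  toFun f := fun τ => if x ∈ τ then sg K x (τ.erase x) * f (τ.erase x) else 0
  map_add' z w := by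
    funext ρ
    simp only [Pi.add_apply]
    split_ifs
    · ring
    · simp
  map_smul' a z := by
    funext ρ
    simp only [Pi.smul_apply, smul_eq_mul, RingHom.id_apply]
    split_ifs
    · ring
    · simp

lemma ext_of_mem {x : V} (f : Finset V → K) {τ : Finset V} (h : x ∈ τ) :
    ext x f τ = sg K x (τ.erase x) * f (τ.erase x) := if_pos h

lemma ext_of_notMem {x : V} (f : Finset V → K) {τ : Finset V} (h : x ∉ τ) :
    ext x f τ = 0 := if_neg h

lemma ext_insert {x : V} (f : Finset V → K) {ρ : Finset V} (h : x ∉ ρ) :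
    ext x f (insert x ρ) = sg K x ρ * f ρ := by
  rw [ext_of_mem f (mem_insert_self x ρ), erase_insert h]

lemma bd_bd (z : Finset V → K) : bd (bd z) = 0 := by
  funext ρ
  rw [bd_apply, Pi.zero_apply]
  have h1 : ∀ j ∈ ρᶜ, sg K j ρ * bd z (insert j ρ) =
      ∑ k ∈ ρᶜ.erase j, sg K j ρ * sg K k (insert j ρ) * z (insert k (insert j ρ)) := by
    intro j _
    rw [bd_apply, mul_sum, compl_insert]
    exact sum_congr rfl fun k _ => by ring
  rw [sum_congr rfl h1, sum_sigma']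
  refine sum_involution (fun p _ => ⟨p.2, p.1⟩) ?_ ?_ ?_ ?_
  · rintro ⟨j, k⟩ hp
    rw [mem_sigma] at hp
    obtain ⟨hj, hk⟩ := hp
    rw [mem_erase, mem_compl] at hk
    rw [mem_compl] at hj
    simp only
    rw [sg_anti' hj hk.2 hk.1.symm, insert_comm k j ρ]
    ring
  · rintro ⟨j, k⟩ hp _ h
    rw [mem_sigma] at hp
    have h2 := (mem_erase.mp hp.2).1
    simp only [Sigma.mk.injEq] at h
    exact h2 h.1
  · rintro ⟨j, k⟩ hp
    rw [mem_sigma] at hp ⊢
    obtain ⟨hj, hk⟩ := hp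
    simp only at hj hk ⊢
    rw [mem_erase] at hk ⊢
    exact ⟨hk.2, hk.1.symm, hj⟩
  · rintro ⟨j, k⟩ _
    rfl

lemma bd_ext (x : V) (f : Finset V → K) : bd (ext x f) = f - ext x (bd f) := by
  funext τ
  rw [Pi.sub_apply]
  by_cases hx : x ∈ τ
  · obtain ⟨ρ, hρ, rfl⟩ : ∃ ρ, x ∉ ρ ∧ τ = insert x ρ :=
      ⟨τ.erase x, notMem_erase x τ, (insert_erase hx).symm⟩
    rw [ext_insert _ hρ, bd_apply, bd_apply, mul_sum]
    have h2 : ρᶜ = insert x (insert x ρ)ᶜ := by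
      ext y
      simp only [mem_compl, mem_insert]
      by_cases hy : y = x
      · subst hy; simp [hρ]
      · simp [hy]
    rw [h2, sum_insert (by simp)]
    rw [← mul_assoc, sg_mul_self, one_mul, sub_add_cancel_left, ← sum_neg_distrib]
    refine sum_congr rfl fun j hj => ?_
    rw [mem_compl, mem_insert] at hj
    push Not at hj
    rw [insert_comm j x ρ, ext_insert _ (by
      rw [mem_insert]; push Not; exact ⟨hj.1.symm, hρ⟩), ← mul_assoc, sg_anti hj.2 hρ hj.1]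
    ring
  · rw [ext_of_notMem _ hx, sub_zero, bd_apply, sum_eq_single x]
    · rw [ext_insert _ hx, ← mul_assoc, sg_mul_self, one_mul]
    · intro j _ hj
      rw [ext_of_notMem, mul_zero]
      rw [mem_insert]; push Not; exact ⟨hj.symm, hx⟩
    · intro h
      exact absurd (mem_compl.mpr hx) h

/-- If `bd z` is nonzero at `ρ`, some larger cell carries `z`. -/
lemma exists_of_bd_ne {z : Finset V → K} {ρ : Finset V} (h : bd z ρ ≠ 0) :
    ∃ j, j ∉ ρ ∧ z (insert j ρ) ≠ 0 := by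
  by_contra hcon
  push Not at hcon
  apply h
  rw [bd_apply]
  refine sum_eq_zero fun j hj => ?_
  rw [hcon j (mem_compl.mp hj), mul_zero]

lemma bd_congr {z w : Finset V → K} {ρ : Finset V}
    (h : ∀ j, j ∉ ρ → z (insert j ρ) = w (insert j ρ)) : bd z ρ = bd w ρ := by
  rw [bd_apply, bd_apply]
  exact sum_congr rfl fun j hj => by rw [h j (mem_compl.mp hj)]

/-- Indicator. -/
def ind (τ : Finset V) : V → ℕ := fun x => if x ∈ τ then 1 else 0

lemma ind_insert {j : V} {τ : Finset V} (h : j ∉ τ) : ind (insert j τ) = ind τ + dl j := by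
  funext z
  simp only [ind, dl, Pi.add_apply, mem_insert]
  by_cases hz : z = j
  · subst hz; simp [h]
  · simp [hz]

lemma add_ind_insert (β : V → ℕ) {j : V} {τ : Finset V} (h : j ∉ τ) :
    β + ind (insert j τ) = β + ind τ + dl j := by
  rw [ind_insert h, add_assoc]

@[simp] lemma sz_ind (τ : Finset V) : sz (ind τ) = τ.card := by
  simp [sz, ind]

@[simp] lemma ind_empty : ind (∅ : Finset V) = 0 := by
  funext z; simp [ind]

/-- Relative exactness at the spot `t` of the Koszul complex spanned by the cells `τ ⊆ W` with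
`P (β + ind τ)`. -/
def Ex (K : Type*) [Field K] (P : (V → ℕ) → Prop) (W : Finset V) (β : V → ℕ) (t : ℕ) : Prop :=
  ∀ z : Finset V → K, (∀ τ, z τ ≠ 0 → τ ⊆ W ∧ τ.card = t ∧ P (β + ind τ)) →
    (∀ ρ, ρ ⊆ W → P (β + ind ρ) → bd z ρ = 0) →
    ∃ w : Finset V → K, (∀ τ, w τ ≠ 0 → τ ⊆ W ∧ τ.card = t + 1 ∧ P (β + ind τ)) ∧
      ∀ ρ, ρ ⊆ W → P (β + ind ρ) → bd w ρ = z ρ

open Classical in
/-- Restriction of a chain. -/
noncomputable def rst (p : Finset V → Prop) (z : Finset V → K) : Finset V → K :=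
  fun τ => if p τ then z τ else 0

lemma rst_pos {p : Finset V → Prop} {z : Finset V → K} {τ : Finset V} (h : p τ) :
    rst p z τ = z τ := by unfold rst; exact if_pos h

lemma rst_neg {p : Finset V → Prop} {z : Finset V → K} {τ : Finset V} (h : ¬ p τ) :
    rst p z τ = 0 := by unfold rst; exact if_neg h

lemma rst_ne {p : Finset V → Prop} {z : Finset V → K} {τ : Finset V} (h : rst p z τ ≠ 0) :
    p τ ∧ z τ ≠ 0 := by
  by_cases hp : p τ
  · rw [rst_pos hp] at h; exact ⟨hp, h⟩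
  · exact absurd (rst_neg hp) h

/-- The relative boundary is a relative cycle. -/
lemma bd_rst_bd {P : (V → ℕ) → Prop} {W : Finset V} {β : V → ℕ}
    (hconv : ∀ c j k, j ∈ W → k ∈ W → P c → P (c + dl j + dl k) → P (c + dl j))
    {w : Finset V → K} (hw : ∀ τ, w τ ≠ 0 → τ ⊆ W ∧ P (β + ind τ)) {ρ : Finset V} (hρ : ρ ⊆ W)
    (hP : P (β + ind ρ)) : bd (rst (fun τ => τ ⊆ W ∧ P (β + ind τ)) (bd w)) ρ = 0 := by
  rw [bd_congr (w := bd w), bd_bd, Pi.zero_apply]
  intro j hj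
  by_cases h : bd w (insert j ρ) = 0
  · rw [h]
    by_contra h2
    exact (rst_ne h2).2 h
  · apply rst_pos
    obtain ⟨k, hk, hk'⟩ := exists_of_bd_ne h
    obtain ⟨h3, h4⟩ := hw _ hk'
    have hkW : k ∈ W := h3 (mem_insert_self _ _)
    have hjW : j ∈ W := h3 (mem_insert_of_mem (mem_insert_self _ _))
    refine ⟨insert_subset hjW hρ, ?_⟩
    rw [add_ind_insert _ hk, add_ind_insert _ hj] at h4
    rw [add_ind_insert _ hj]
    exact hconv _ _ _ hjW hkW hP h4

/-- The toggle lemma. -/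
lemma toggle {P Pa Pb : (V → ℕ) → Prop} {W : Finset V} {v : V} (hv : v ∈ W) {β : V → ℕ} {t : ℕ}
    (hconv : ∀ c j k, j ∈ W → k ∈ W → P c → P (c + dl j + dl k) → P (c + dl j))
    (hPa : ∀ c, Pa c ↔ P c ∧ ¬ P (c + dl v))
    (hPb : ∀ c, Pb (c + dl v) ↔ P (c + dl v) ∧ ¬ P c)
    (h1 : Ex K Pa (W.erase v) β t)
    (h2 : ∀ t', t = t' + 1 → Ex K Pb (W.erase v) (β + dl v) t') :
    Ex K P W β t := by
  intro z hz hzc
  have hWe : ∀ {τ : Finset V}, τ ⊆ W.erase v → τ ⊆ W ∧ v ∉ τ := fun {τ} h =>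
    ⟨h.trans (erase_subset _ _), fun hvτ => (mem_erase.mp (h hvτ)).1 rfl⟩
  have hWe' : ∀ {τ : Finset V}, τ ⊆ W → v ∉ τ → τ ⊆ W.erase v := fun {τ} h h' y hy =>
    mem_erase.mpr ⟨fun e => h' (e ▸ hy), h hy⟩
  set p : Finset V → Prop := fun τ => τ ⊆ W ∧ P (β + ind τ) with hp
  -- first correction
  obtain ⟨w0, hw0, hw0'⟩ := h1 (rst (fun τ => v ∉ τ ∧ Pa (β + ind τ)) z) (by
    intro τ hτ
    obtain ⟨⟨h3, h4⟩, h5⟩ := rst_ne hτ
    obtain ⟨h6, h7, -⟩ := hz τ h5
    exact ⟨hWe' h6 h3, h7, h4⟩) (by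
    intro ρ hρ hPaρ
    obtain ⟨hρW, hvρ⟩ := hWe hρ
    rw [hPa] at hPaρ
    -- compare with z: the difference is only at the cell containing v
    have hcz := hzc ρ hρW hPaρ.1
    rw [← hcz]
    apply bd_congr
    intro j hj
    by_cases hjv : j = v
    · subst hjv
      rw [rst_neg (by simp)]
      by_contra hne
      obtain ⟨h6, -, h7⟩ := hz _ (Ne.symm hne)
      rw [add_ind_insert _ hj] at h7
      exact hPaρ.2 h7
    · by_cases h0 : z (insert j ρ) = 0
      · rw [h0]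
        by_contra h2
        exact (rst_ne h2).2 h0
      · apply rst_pos
        obtain ⟨h6, -, h7⟩ := hz _ h0
        have hjW : j ∈ W := h6 (mem_insert_self _ _)
        refine ⟨?_, ?_⟩
        · rw [mem_insert]; push Not; exact ⟨Ne.symm hjv, hvρ⟩
        · rw [hPa]
          refine ⟨h7, fun h8 => hPaρ.2 ?_⟩
          rw [add_ind_insert _ hj, add_right_comm'] at h8
          exact hconv _ _ _ hv hjW hPaρ.1 h8)
  have hw0P : ∀ τ, w0 τ ≠ 0 → τ ⊆ W ∧ P (β + ind τ) := by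
    intro τ hτ
    obtain ⟨h3, -, h5⟩ := hw0 τ hτ
    exact ⟨(hWe h3).1, ((hPa _).mp h5).1⟩
  set z2 : Finset V → K := z - rst p (bd w0) with hz2
  have hz2p : ∀ τ, z2 τ ≠ 0 → p τ ∧ τ.card = t := by
    intro τ hτ
    by_cases h0 : z τ = 0
    · have h3 : rst p (bd w0) τ ≠ 0 := by
        intro h3
        apply hτ
        rw [hz2, Pi.sub_apply, h0, h3, sub_zero]
      obtain ⟨h4, h5⟩ := rst_ne h3
      obtain ⟨j, hj, hj'⟩ := exists_of_bd_ne h5
      have h6 := (hw0 _ hj').2.1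
      rw [card_insert_of_notMem hj] at h6
      exact ⟨h4, by omega⟩
    · obtain ⟨h3, h4, h5⟩ := hz τ h0
      exact ⟨⟨h3, h5⟩, h4⟩
  have hz2c : ∀ ρ, ρ ⊆ W → P (β + ind ρ) → bd z2 ρ = 0 := by
    intro ρ hρ hPρ
    rw [hz2, map_sub, Pi.sub_apply, hzc ρ hρ hPρ, bd_rst_bd hconv hw0P hρ hPρ, sub_zero]
  have hz2a : ∀ τ, v ∉ τ → z2 τ ≠ 0 → P (β + ind τ + dl v) := by
    intro τ hvτ hτ
    by_contra hcon
    obtain ⟨⟨h3, h4⟩, -⟩ := hz2p τ hτ
    apply hτ
    have hPaτ : Pa (β + ind τ) := (hPa _).mpr ⟨h4, hcon⟩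
    rw [hz2, Pi.sub_apply, rst_pos (⟨h3, h4⟩ : p τ), hw0' τ (hWe' h3 hvτ) hPaτ,
      rst_pos (⟨hvτ, hPaτ⟩ : v ∉ τ ∧ Pa (β + ind τ)), sub_self]
  -- second correction
  set y : Finset V → K := ext v (rst (fun τ => v ∉ τ) z2) with hy
  have hyP : ∀ τ, y τ ≠ 0 → τ ⊆ W ∧ τ.card = t + 1 ∧ P (β + ind τ) := by
    intro τ hτ
    have hvτ : v ∈ τ := by
      by_contra h
      exact hτ (ext_of_notMem _ h)
    rw [hy, ext_of_mem _ hvτ] at hτ
    have h3 := right_ne_zero_of_mul hτ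
    obtain ⟨h4, h5⟩ := rst_ne h3
    obtain ⟨⟨h6, h7⟩, h8⟩ := hz2p _ h5
    have h9 := hz2a _ h4 h5
    rw [← add_ind_insert _ h4, insert_erase hvτ] at h9
    refine ⟨?_, ?_, h9⟩
    · intro u hu
      by_cases huv : u = v
      · subst huv; exact hv
      · exact h6 (mem_erase.mpr ⟨huv, hu⟩)
    · rw [card_erase_of_mem hvτ] at h8
      have := card_pos.mpr ⟨v, hvτ⟩
      omega
  set z3 : Finset V → K := z2 - rst p (bd y) with hz3
  have hz3p : ∀ τ, z3 τ ≠ 0 → p τ ∧ τ.card = t := by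
    intro τ hτ
    by_cases h0 : z2 τ = 0
    · have h3 : rst p (bd y) τ ≠ 0 := by
        intro h3
        apply hτ
        rw [hz3, Pi.sub_apply, h0, h3, sub_zero]
      obtain ⟨h4, h5⟩ := rst_ne h3
      obtain ⟨j, hj, hj'⟩ := exists_of_bd_ne h5
      have h6 := (hyP _ hj').2.1
      rw [card_insert_of_notMem hj] at h6
      exact ⟨h4, by omega⟩
    · exact hz2p τ h0
  have hz3c : ∀ ρ, ρ ⊆ W → P (β + ind ρ) → bd z3 ρ = 0 := by
    intro ρ hρ hPρ
    rw [hz3, map_sub, Pi.sub_apply, hz2c ρ hρ hPρ,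
      bd_rst_bd hconv (fun τ hτ => ⟨(hyP τ hτ).1, (hyP τ hτ).2.2⟩) hρ hPρ, sub_zero]
  have hz3v : ∀ τ, v ∉ τ → z3 τ = 0 := by
    intro τ hvτ
    by_contra hne
    obtain ⟨h3, -⟩ := hz3p τ hne
    apply hne
    rw [hz3, Pi.sub_apply, rst_pos h3, hy, bd_ext, Pi.sub_apply, ext_of_notMem _ hvτ,
      rst_pos hvτ, sub_zero, sub_self]
  -- contraction
  set z31 : Finset V → K := fun ρ => if v ∈ ρ then 0 else sg K v ρ * z3 (insert v ρ) with hz31
  have hz31n : ∀ ρ, v ∉ ρ → z31 ρ = sg K v ρ * z3 (insert v ρ) := fun ρ h => if_neg h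
  have hz3e : z3 = ext v z31 := by
    funext τ
    by_cases hvτ : v ∈ τ
    · rw [ext_of_mem _ hvτ, hz31n _ (notMem_erase v τ), insert_erase hvτ, ← mul_assoc,
        sg_mul_self, one_mul]
    · rw [ext_of_notMem _ hvτ, hz3v τ hvτ]
  have hz31ne : ∀ ρ, z31 ρ ≠ 0 → v ∉ ρ ∧ ρ ⊆ W ∧ ρ.card + 1 = t ∧ P (β + ind ρ + dl v) := by
    intro ρ hρ
    have hvρ : v ∉ ρ := by
      intro h
      exact hρ (if_pos h)
    rw [hz31n ρ hvρ] at hρ
    obtain ⟨⟨h3, h4⟩, h5⟩ := hz3p _ (right_ne_zero_of_mul hρ)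
    rw [card_insert_of_notMem hvρ] at h5
    rw [add_ind_insert _ hvρ] at h4
    exact ⟨hvρ, (subset_insert _ _).trans h3, h5, h4⟩
  have hz31P : ∀ ρ, ρ ⊆ W → v ∉ ρ → P (β + ind ρ) → z31 ρ = 0 := by
    intro ρ hρ hvρ hPρ
    have h3 := hz3c ρ hρ hPρ
    rw [hz3e, bd_ext, Pi.sub_apply, ext_of_notMem _ hvρ, sub_zero] at h3
    exact h3
  have hz31c : ∀ ρ, ρ ⊆ W → v ∉ ρ → P (β + ind ρ + dl v) → bd z31 ρ = 0 := by
    intro ρ hρ hvρ hPρ
    have h3 := hz3c (insert v ρ) (insert_subset hv hρ) (by rw [add_ind_insert _ hvρ]; exact hPρ)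
    rw [hz3e, bd_ext, Pi.sub_apply, ext_insert _ hvρ] at h3
    have h4 : z31 (insert v ρ) = 0 := if_pos (mem_insert_self _ _)
    rw [h4, zero_sub, neg_eq_zero] at h3
    exact (mul_eq_zero.mp h3).resolve_left (sg_ne_zero v ρ)
  -- third correction
  obtain ⟨w1, hw1, hw1'⟩ : ∃ w : Finset V → K,
      (∀ τ, w τ ≠ 0 → τ ⊆ W.erase v ∧ τ.card = t ∧ Pb (β + dl v + ind τ)) ∧
      ∀ ρ, ρ ⊆ W.erase v → Pb (β + dl v + ind ρ) → bd w ρ = z31 ρ := by
    cases t with
    | zero =>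
      refine ⟨0, fun τ hτ => absurd rfl hτ, fun ρ hρ _ => ?_⟩
      rw [map_zero, Pi.zero_apply]
      by_contra hne
      have := (hz31ne ρ (Ne.symm hne)).2.2.1
      omega
    | succ t' =>
      refine h2 t' rfl z31 (fun τ hτ => ?_) (fun ρ hρ hPρ => ?_)
      · obtain ⟨h3, h4, h5, h6⟩ := hz31ne τ hτ
        refine ⟨hWe' h4 h3, by omega, ?_⟩
        rw [add_right_comm, hPb]
        exact ⟨h6, fun h7 => hτ (hz31P τ h4 h3 h7)⟩
      · obtain ⟨hρW, hvρ⟩ := hWe hρ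
        rw [add_right_comm, hPb] at hPρ
        exact hz31c ρ hρW hvρ hPρ.1
  have hw1' : ∀ ρ, ρ ⊆ W → v ∉ ρ → P (β + ind ρ + dl v) → bd w1 ρ = z31 ρ := by
    intro ρ hρW hvρ hPρ
    by_cases hP0 : P (β + ind ρ)
    · rw [hz31P ρ hρW hvρ hP0]
      by_contra hne
      obtain ⟨j, hj, hj'⟩ := exists_of_bd_ne hne
      obtain ⟨h3, -, h5⟩ := hw1 _ hj'
      obtain ⟨h6, h7⟩ := hWe h3
      rw [add_right_comm, hPb, add_ind_insert _ hj] at h5
      exact h5.2 (hconv _ _ _ (h6 (mem_insert_self _ _)) hv hP0 h5.1)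
    · refine hw1' ρ (hWe' hρW hvρ) ?_
      rw [add_right_comm, hPb]
      exact ⟨hPρ, hP0⟩
  have hw1P : ∀ τ, w1 τ ≠ 0 → τ ⊆ W ∧ v ∉ τ ∧ τ.card = t ∧ P (β + ind τ + dl v) ∧
      ¬ P (β + ind τ) := by
    intro τ hτ
    obtain ⟨h3, h4, h5⟩ := hw1 _ hτ
    rw [add_right_comm, hPb] at h5
    exact ⟨(hWe h3).1, (hWe h3).2, h4, h5.1, h5.2⟩
  refine ⟨w0 + y - ext v w1, ?_, ?_⟩
  · intro τ hτ
    by_cases h3 : w0 τ = 0
    · by_cases h4 : y τ = 0
      · have h5 : ext v w1 τ ≠ 0 := by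
          intro h5
          apply hτ
          rw [Pi.sub_apply, Pi.add_apply, h3, h4, h5]; simp
        have hvτ : v ∈ τ := by
          by_contra h
          exact h5 (ext_of_notMem _ h)
        rw [ext_of_mem _ hvτ] at h5
        obtain ⟨h6, h7, h8, h9, -⟩ := hw1P _ (right_ne_zero_of_mul h5)
        rw [← add_ind_insert _ h7, insert_erase hvτ] at h9
        refine ⟨?_, ?_, h9⟩
        · intro u hu
          by_cases huv : u = v
          · subst huv; exact hv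
          · exact h6 (mem_erase.mpr ⟨huv, hu⟩)
        · rw [card_erase_of_mem hvτ] at h8
          have := card_pos.mpr ⟨v, hvτ⟩
          omega
      · exact hyP τ h4
    · obtain ⟨h4, h5, h6⟩ := hw0 τ h3
      exact ⟨(hWe h4).1, h5, ((hPa _).mp h6).1⟩
  · intro ρ hρ hPρ
    have hpρ : p ρ := ⟨hρ, hPρ⟩
    have e1 : bd w0 ρ = z ρ - z2 ρ := by
      rw [hz2, Pi.sub_apply, rst_pos hpρ]; ring
    have e2 : bd y ρ = z2 ρ - z3 ρ := by
      rw [hz3, Pi.sub_apply, rst_pos hpρ]; ring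
    have e3 : bd (ext v w1) ρ = - z3 ρ := by
      rw [bd_ext, Pi.sub_apply]
      by_cases hvρ : v ∈ ρ
      · have h3 : w1 ρ = 0 := by
          by_contra h
          exact (hw1P ρ h).2.1 hvρ
        have h4 : ρ.erase v ⊆ W := (erase_subset _ _).trans hρ
        have h5 : P (β + ind (ρ.erase v) + dl v) := by
          rw [← add_ind_insert _ (notMem_erase v ρ), insert_erase hvρ]; exact hPρ
        rw [h3, zero_sub, ext_of_mem _ hvρ, hw1' _ h4 (notMem_erase v ρ) h5, hz3e,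
          ext_of_mem _ hvρ]
      · have h3 : w1 ρ = 0 := by
          by_contra h
          exact (hw1P ρ h).2.2.2.2 hPρ
        rw [h3, ext_of_notMem _ hvρ, hz3v ρ hvρ]; simp
    rw [map_sub, map_add, Pi.sub_apply, Pi.add_apply, e1, e2, e3]
    ring

end Pool.Agent.Lib.MP_97fe03_al
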