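import Mathlib

/-!
Degree sequences of multisets of edges: exchange, augmentation.
-/

set_option autoImplicit false
set_option linter.unusedSectionVars false

namespace Pool.Agent.Lib.MP_97fe03_al

variable {V : Type*} [DecidableEq V]

/-- Unit vector. -/
def dl (x : V) : V → ℕ := fun z => if z = x then 1 else 0

@[simp] lemma dl_self (x : V) : dl x x = 1 := by simp [dl]

lemma dl_ne {x z : V} (h : z ≠ x) : dl x z = 0 := by simp [dl, h]

/-- `Mat G k a`: `a` is the degree sequence of a multiset of `k` edges of `G`. -/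
inductive Mat (G : SimpleGraph V) : ℕ → (V → ℕ) → Prop
  | zero : Mat G 0 0
  | add {k : ℕ} {a : V → ℕ} {u v : V} : Mat G k a → G.Adj u v → Mat G (k + 1) (a + dl u + dl v)

variable {G : SimpleGraph V}

lemma Mat.cast {k : ℕ} {a b : V → ℕ} (h : Mat G k a) (e : a = b) : Mat G k b := e ▸ h

lemma Mat.pick {k : ℕ} {a : V → ℕ} (h : Mat G k a) {y : V} (hy : 0 < a y) :
    ∃ k' a' w, k = k' + 1 ∧ G.Adj y w ∧ Mat G k' a' ∧ a = a' + dl y + dl w := by
  induction h with
  | zero => simp at hy
  | @add k a u v h huv ih =>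
    by_cases hu : y = u
    · subst hu
      exact ⟨k, a, v, rfl, huv, h, rfl⟩
    by_cases hv : y = v
    · subst hv
      exact ⟨k, a, u, rfl, huv.symm, h, by funext z; simp only [Pi.add_apply]; omega⟩
    have h1 : 0 < a y := by
      simpa [Pi.add_apply, dl_ne hu, dl_ne hv] using hy
    obtain ⟨k', a', w, rfl, hyw, hM, rfl⟩ := ih h1
    refine ⟨k' + 1, a' + dl u + dl v, w, rfl, hyw, hM.add huv, ?_⟩
    funext z; simp only [Pi.add_apply]; omega

/-- Alternating path exchange. -/
lemma exch : ∀ (k : ℕ) (a : V → ℕ), Mat G k a → ∀ (l : ℕ) (b : V → ℕ) (y : V), Mat G l b →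
    b y < a y → ∃ u,
      (a u < b u ∧ ∃ a' b', a' + dl y = a + dl u ∧ b' + dl u = b + dl y ∧ Mat G k a' ∧
        Mat G l b') ∨
      (b u + dl y u < a u ∧ Mat G (l + 1) (b + dl y + dl u) ∧
        ∃ k' a', k = k' + 1 ∧ a' + dl y + dl u = a ∧ Mat G k' a') := by
  intro k
  induction k with
  | zero =>
    intro a ha l b y hb hy
    cases ha
    simp at hy
  | succ k ih =>
    intro a ha l b y hb hy
    obtain ⟨k0, a1, w, hk, hyw, ha1, rfl⟩ := ha.pick (y := y) (by omega)
    obtain rfl : k = k0 := by omega
    have hne : w ≠ y := hyw.ne'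
    simp only [Pi.add_apply, dl_self, dl_ne hne.symm, add_zero] at hy
    by_cases h1 : b w < (a1 + dl y + dl w) w
    · refine ⟨w, Or.inr ⟨?_, hb.add hyw, k, a1, rfl, rfl, ha1⟩⟩
      rw [dl_ne hne, add_zero]; exact h1
    · simp only [Pi.add_apply, dl_self, dl_ne hne, add_zero] at h1
      obtain ⟨l1, b1, x, rfl, hwx, hb1, rfl⟩ := hb.pick (y := w) (by omega)
      have hxw : x ≠ w := hwx.ne'
      simp only [Pi.add_apply, dl_self, dl_ne hne.symm, dl_ne hxw.symm, add_zero] at hy h1
      by_cases h2 : (a1 + dl y + dl w) x < (b1 + dl w + dl x) x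
      · refine ⟨x, Or.inl ⟨h2, a1 + dl w + dl x, b1 + dl y + dl w, ?_, ?_, ha1.add hwx,
          hb1.add hyw⟩⟩
        · funext z; simp only [Pi.add_apply]; omega
        · funext z; simp only [Pi.add_apply]; omega
      · simp only [Pi.add_apply, dl_self, dl_ne hxw, add_zero] at h2
        have h3 : b1 x < a1 x := by
          by_cases hxy : x = y
          · subst hxy
            simp only [dl_self] at h2 hy
            omega
          · rw [dl_ne hxy] at h2
            omega
        obtain ⟨u, hu | hu⟩ := ih a1 ha1 l1 b1 x hb1 h3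
        · obtain ⟨h4, a', b', ha', hb', hMa, hMb⟩ := hu
          refine ⟨u, Or.inl ⟨?_, a' + dl w + dl x, b' + dl y + dl w, ?_, ?_, hMa.add hwx,
            hMb.add hyw⟩⟩
          · by_cases huy : u = y
            · subst huy
              exfalso
              omega
            · simp only [Pi.add_apply, dl_ne huy]
              omega
          · funext z
            have := congrFun ha' z
            simp only [Pi.add_apply] at this ⊢
            omega
          · funext z
            have := congrFun hb' z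
            simp only [Pi.add_apply] at this ⊢
            omega
        · obtain ⟨h4, hMb, k', a', rfl, ha', hMa⟩ := hu
          refine ⟨u, Or.inr ⟨?_, ?_, k' + 1, a' + dl w + dl x, rfl, ?_, hMa.add hwx⟩⟩
          · simp only [Pi.add_apply]
            omega
          · refine (hMb.add hyw).cast ?_
            funext z; simp only [Pi.add_apply]; omega
          · funext z
            have := congrFun ha' z
            simp only [Pi.add_apply] at this ⊢
            omega

variable [Fintype V]

/-- Total size. -/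
def sz (c : V → ℕ) : ℕ := ∑ x, c x

@[simp] lemma sz_add (a b : V → ℕ) : sz (a + b) = sz a + sz b := by
  simp [sz, Finset.sum_add_distrib]

@[simp] lemma sz_dl (x : V) : sz (dl x) = 1 := by
  simp [sz, dl]

@[simp] lemma sz_zero : sz (0 : V → ℕ) = 0 := by simp [sz]

lemma le_at {a b : V → ℕ} (h : a ≤ b) (z : V) : a z ≤ b z := h z

lemma le_of {a b : V → ℕ} (h : ∀ z, a z ≤ b z) : a ≤ b := h

lemma sz_mono {a b : V → ℕ} (h : a ≤ b) : sz a ≤ sz b := Finset.sum_le_sum fun x _ => h x

lemma exists_lt_of_sz_lt {a b : V → ℕ} (h : sz a < sz b) : ∃ t, a t < b t := by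
  obtain ⟨t, -, ht⟩ := Finset.exists_lt_of_sum_lt h
  exact ⟨t, ht⟩

lemma eq_of_le_of_sz_le {a b : V → ℕ} (h : a ≤ b) (h2 : sz b ≤ sz a) : a = b := by
  by_contra hne
  have : ∃ t, a t < b t := by
    by_contra hcon
    push Not at hcon
    exact hne (le_antisymm h hcon)
  obtain ⟨t, ht⟩ := this
  have := Finset.sum_lt_sum (s := Finset.univ) (f := a) (g := b) (fun x _ => h x)
    ⟨t, Finset.mem_univ _, ht⟩
  unfold sz at h2
  omega

lemma Mat.sz_eq {k : ℕ} {a : V → ℕ} (h : Mat G k a) : sz a = 2 * k := by
  induction h with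
  | zero => simp
  | add h huv ih => simp [ih]; ring

/-- `c` is coverable by `s` edges (in matching form). -/
def Mt (G : SimpleGraph V) (s : ℕ) (c : V → ℕ) : Prop :=
  ∃ m d, Mat G m d ∧ d ≤ c ∧ sz c ≤ s + m

/-- Some matching of `c` of the size `sz c - s - 1` misses `T`. -/
def Ind (G : SimpleGraph V) (s : ℕ) (c T : V → ℕ) : Prop :=
  ∃ m d, Mat G m d ∧ d + T ≤ c ∧ sz c ≤ s + 1 + m

lemma le_add_of_ne {d c : V → ℕ} {v : V} (h : d ≤ c + dl v) (hv : d v ≤ c v) : d ≤ c := by
  refine le_of fun z => ?_
  by_cases hz : z = v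
  · subst hz; exact hv
  · have := le_at h z
    simpa [Pi.add_apply, dl_ne hz] using this

lemma Mt.down {s : ℕ} {c : V → ℕ} {v : V} (h : Mt G s (c + dl v)) : Mt G s c := by
  obtain ⟨m, d, hd, hle, hs⟩ := h
  simp only [sz_add, sz_dl] at hs
  by_cases hv : d v ≤ c v
  · exact ⟨m, d, hd, le_add_of_ne hle hv, by omega⟩
  · obtain ⟨m', d', w, rfl, hvw, hd', rfl⟩ := hd.pick (y := v) (by omega)
    refine ⟨m', d', hd', ?_, by omega⟩
    refine le_of fun z => ?_
    have h1 := le_at hle z
    simp only [Pi.add_apply] at h1 hv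
    by_cases hz : z = v
    · subst hz; rw [dl_self] at h1 hv; omega
    · rw [dl_ne hz] at h1; omega

lemma Mt.up {s : ℕ} {c : V → ℕ} {u v : V} (h : Mt G s c) (huv : G.Adj u v) :
    Mt G (s + 1) (c + dl u + dl v) := by
  obtain ⟨m, d, hd, hle, hs⟩ := h
  refine ⟨m + 1, d + dl u + dl v, hd.add huv, ?_, ?_⟩
  · refine le_of fun z => ?_
    have := le_at hle z
    simp only [Pi.add_apply]
    omega
  · simp only [sz_add, sz_dl]
    omega

lemma Ind.mono {s : ℕ} {c T T' : V → ℕ} (h : Ind G s c T) (hT : T' ≤ T) : Ind G s c T' := by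
  obtain ⟨m, d, hd, hle, hs⟩ := h
  refine ⟨m, d, hd, ?_, hs⟩
  refine le_of fun z => ?_
  have h1 := le_at hle z
  have h2 := le_at hT z
  simp only [Pi.add_apply] at h1 ⊢
  omega

lemma ind_add_iff {s : ℕ} {c T : V → ℕ} {v : V} (hc : ¬ Mt G s c) :
    Ind G s (c + dl v) T ↔ ∃ w, G.Adj v w ∧ Ind G s c (T + dl w) := by
  constructor
  · rintro ⟨m, d, hd, hle, hs⟩
    simp only [sz_add, sz_dl] at hs
    by_cases hv : d v ≤ c v
    · exfalso
      refine hc ⟨m, d, hd, ?_, by omega⟩
      refine le_add_of_ne (v := v) ?_ hv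
      refine le_of fun z => ?_
      have := le_at hle z
      simp only [Pi.add_apply] at this ⊢
      omega
    · obtain ⟨m', d', w, rfl, hvw, hd', rfl⟩ := hd.pick (y := v) (by omega)
      refine ⟨w, hvw, m', d', hd', ?_, by omega⟩
      refine le_of fun z => ?_
      have h1 := le_at hle z
      simp only [Pi.add_apply] at h1 ⊢
      omega
  · rintro ⟨w, hvw, m, d, hd, hle, hs⟩
    refine ⟨m + 1, d + dl v + dl w, hd.add hvw, ?_, ?_⟩
    · refine le_of fun z => ?_
      have h1 := le_at hle z
      simp only [Pi.add_apply] at h1 ⊢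
      omega
    · simp only [sz_add, sz_dl]
      omega

lemma mt_iff_ind {s : ℕ} {c : V → ℕ} : Mt G (s + 1) c ↔ Ind G s c 0 := by
  constructor
  · rintro ⟨m, d, hd, hle, hs⟩
    exact ⟨m, d, hd, by simpa using hle, hs⟩
  · rintro ⟨m, d, hd, hle, hs⟩
    exact ⟨m, d, hd, by simpa using hle, hs⟩

lemma not_ind_adj {s : ℕ} {c : V → ℕ} {u v : V} (hc : ¬ Mt G s c) (huv : G.Adj u v) :
    ¬ Ind G s c (dl u + dl v) := by
  rintro ⟨m, d, hd, hle, hs⟩
  refine hc ⟨m + 1, d + dl u + dl v, hd.add huv, ?_, by omega⟩
  rw [add_assoc]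
  exact hle

lemma ind_self_iff {s : ℕ} {c : V → ℕ} {x : V} : Ind G s (c + dl x) (dl x) ↔ Mt G s c := by
  constructor
  · rintro ⟨m, d, hd, hle, hs⟩
    simp only [sz_add, sz_dl] at hs
    refine ⟨m, d, hd, ?_, by omega⟩
    refine le_of fun z => ?_
    have h1 := le_at hle z
    simp only [Pi.add_apply] at h1
    omega
  · rintro ⟨m, d, hd, hle, hs⟩
    refine ⟨m, d, hd, ?_, ?_⟩
    · refine le_of fun z => ?_
      have h1 := le_at hle z
      simp only [Pi.add_apply]
      omega
    · simp only [sz_add, sz_dl]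
      omega

/-- Going down in `c` keeps independence. -/
lemma Ind.down {s : ℕ} {c T : V → ℕ} {v : V} (hc : ¬ Mt G s c) (h : Ind G s (c + dl v) T) :
    Ind G s c T := by
  obtain ⟨w, -, hw⟩ := (ind_add_iff hc).mp h
  refine hw.mono ?_
  refine le_of fun z => ?_
  simp only [Pi.add_apply]
  omega

/-- The augmentation property. -/
lemma aug {s : ℕ} {c : V → ℕ} (hc : ¬ Mt G s c) {I₁ : V → ℕ} (h₁ : Ind G s c I₁) :
    ∀ (n : ℕ) (I₂ : V → ℕ), sz (fun x => I₁ x - I₂ x) ≤ n → Ind G s c I₂ → sz I₁ < sz I₂ →
      ∃ t, I₁ t < I₂ t ∧ Ind G s c (I₁ + dl t) := by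
  obtain ⟨m₁, d₁, hd₁, hle₁, hs₁⟩ := h₁
  intro n
  induction n with
  | zero =>
    intro I₂ hn h₂ hlt
    obtain ⟨t, ht⟩ := exists_lt_of_sz_lt hlt
    refine ⟨t, ht, h₂.mono ?_⟩
    refine le_of fun z => ?_
    have h0 : sz (fun x => I₁ x - I₂ x) = 0 := by omega
    have h1 : I₁ z - I₂ z = 0 := by
      unfold sz at h0
      exact (Finset.sum_eq_zero_iff.mp h0) z (Finset.mem_univ _)
    simp only [Pi.add_apply]
    by_cases hz : z = t
    · subst hz; rw [dl_self]; omega
    · rw [dl_ne hz]; omega
  | succ n ih =>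
    intro I₂ hn h₂ hlt
    obtain ⟨t, ht⟩ := exists_lt_of_sz_lt hlt
    by_cases hfree : d₁ t + I₁ t < c t
    · refine ⟨t, ht, m₁, d₁, hd₁, ?_, hs₁⟩
      refine le_of fun z => ?_
      have h1 := le_at hle₁ z
      simp only [Pi.add_apply] at h1 ⊢
      by_cases hz : z = t
      · subst hz; rw [dl_self]; omega
      · rw [dl_ne hz]; omega
    · obtain ⟨m₂, d₂, hd₂, hle₂, hs₂⟩ := h₂
      have e1 := le_at hle₁ t
      have e2 := le_at hle₂ t
      simp only [Pi.add_apply] at e1 e2
      obtain ⟨u, hu | hu⟩ := exch m₁ d₁ hd₁ m₂ d₂ t hd₂ (by omega)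
      · obtain ⟨h4, a', b', ha', hb', hMa, hMb⟩ := hu
        by_cases hfu : d₁ u + I₁ u < c u
        · refine ⟨t, ht, m₁, a', hMa, ?_, hs₁⟩
          refine le_of fun z => ?_
          have h1 := le_at hle₁ z
          have h2 := congrFun ha' z
          simp only [Pi.add_apply] at h1 h2 ⊢
          by_cases hz : z = u
          · subst hz; rw [dl_self] at h2; omega
          · rw [dl_ne hz] at h2; omega
        · have e3 := le_at hle₂ u
          simp only [Pi.add_apply] at e3
          have hIu : I₂ u < I₁ u := by omega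
          have hut : u ≠ t := by rintro rfl; omega
          -- the new set
          let I₃ : V → ℕ := fun z => I₂ z + dl u z - dl t z
          have hI₃ : I₃ + dl t = I₂ + dl u := by
            funext z
            simp only [I₃, Pi.add_apply]
            by_cases hz : z = t
            · subst hz; rw [dl_self]; omega
            · rw [dl_ne hz]; omega
          have hsz : sz I₃ = sz I₂ := by
            have := congrArg sz hI₃
            simp only [sz_add, sz_dl] at this
            omega
          have hInd : Ind G s c I₃ := by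
            refine ⟨m₂, b', hMb, ?_, hs₂⟩
            refine le_of fun z => ?_
            have h1 := le_at hle₂ z
            have h2 := congrFun hb' z
            have h3 := congrFun hI₃ z
            simp only [Pi.add_apply] at h1 h2 h3 ⊢
            omega
          have hdrop : sz (fun x => I₁ x - I₃ x) + 1 ≤ sz (fun x => I₁ x - I₂ x) := by
            have : sz ((fun x => I₁ x - I₃ x) + dl u) ≤ sz (fun x => I₁ x - I₂ x) := by
              apply sz_mono
              refine le_of fun z => ?_
              have h3 := congrFun hI₃ z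
              simp only [Pi.add_apply] at h3 ⊢
              by_cases hz : z = u
              · subst hz
                rw [dl_self] at h3 ⊢
                rw [dl_ne hut] at h3
                omega
              · rw [dl_ne hz] at h3 ⊢
                by_cases hz' : z = t
                · subst hz'; rw [dl_self] at h3; omega
                · rw [dl_ne hz'] at h3; omega
            simpa using this
          obtain ⟨t', ht', hInd'⟩ := ih I₃ (by omega) hInd (by omega)
          refine ⟨t', ?_, hInd'⟩
          have h3 := congrFun hI₃ t'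
          simp only [Pi.add_apply] at h3
          by_cases hz : t' = u
          · subst hz
            rw [dl_self, dl_ne hut] at h3
            omega
          · rw [dl_ne hz] at h3
            omega
      · obtain ⟨h4, hMb, -⟩ := hu
        exfalso
        refine hc ⟨m₂ + 1, _, hMb, ?_, by omega⟩
        refine le_of fun z => ?_
        have h1 := le_at hle₁ z
        have h2 := le_at hle₂ z
        simp only [Pi.add_apply] at h1 h2 ⊢
        by_cases hz : z = t
        · subst hz
          by_cases hz' : z = u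
          · subst hz'
            simp only [dl_self] at h4 ⊢
            omega
          · rw [dl_self, dl_ne hz']
            omega
        · rw [dl_ne hz]
          by_cases hz' : z = u
          · subst hz'
            rw [dl_self]
            omega
          · rw [dl_ne hz']
            omega

/-- Augmentation of a single element by a pair. -/
lemma aug_one {s : ℕ} {c : V → ℕ} (hc : ¬ Mt G s c) {x z w : V} (h₁ : Ind G s c (dl x))
    (h₂ : Ind G s c (dl z + dl w)) : Ind G s c (dl x + dl z) ∨ Ind G s c (dl x + dl w) := by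
  obtain ⟨t, ht, hInd⟩ := aug hc h₁ _ _ le_rfl h₂ (by simp)
  by_cases h1 : t = z
  · subst h1; exact Or.inl hInd
  by_cases h2 : t = w
  · subst h2; exact Or.inr hInd
  simp only [Pi.add_apply, dl_ne h1, dl_ne h2] at ht
  omega

/-- Augmentation of a pair by a triple. -/
lemma aug_two {s : ℕ} {c : V → ℕ} (hc : ¬ Mt G s c) {x y z w t : V}
    (h₁ : Ind G s c (dl x + dl y)) (h₂ : Ind G s c (dl z + dl w + dl t)) :
    (Ind G s c (dl x + dl y + dl z) ∧ dl x z + dl y z < dl z z + dl w z + dl t z) ∨
    Ind G s c (dl x + dl y + dl w) ∨ Ind G s c (dl x + dl y + dl t) := by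
  obtain ⟨t', ht, hInd⟩ := aug hc h₁ _ _ le_rfl h₂ (by simp)
  by_cases h1 : t' = z
  · subst h1; exact Or.inl ⟨hInd, ht⟩
  by_cases h2 : t' = w
  · subst h2; exact Or.inr (Or.inl hInd)
  by_cases h3 : t' = t
  · subst h3; exact Or.inr (Or.inr hInd)
  simp only [Pi.add_apply, dl_ne h1, dl_ne h2, dl_ne h3] at ht
  omega

end Pool.Agent.Lib.MP_97fe03_al
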