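import Pool.Agent.Lib.MP_97fe03_al.Main

/-!
The combinatorial form of the main theorem.
-/

set_option autoImplicit false
set_option linter.unusedSectionVars false

namespace Pool.Agent.Lib.MP_97fe03_al

open Finset

variable {V : Type*} [LinearOrder V] [Fintype V] {K : Type*} [Field K] {G : SimpleGraph V}
  {s : ℕ}

lemma Mt.sz_le {c : V → ℕ} (h : Mt G s c) : sz c ≤ 2 * s := by
  obtain ⟨m, d, hd, hle, hs⟩ := h
  have h1 := hd.sz_eq
  have h2 := sz_mono hle
  omega

/-- A non-exactness witness. -/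
lemma exists_cycle_of_not_ex {b : V → ℕ} {i : ℕ} (h : ¬ Ex K (Mt G s) univ b i) :
    ∃ z : Finset V → K, z ≠ 0 ∧ (∀ τ, z τ ≠ 0 → τ.card = i ∧ Mt G s (b + ind τ)) ∧ bd z = 0 := by
  unfold Ex at h
  push Not at h
  obtain ⟨z, hz, hzc, hw⟩ := h
  refine ⟨z, ?_, fun τ hτ => (hz τ hτ).2, ?_⟩
  · rintro rfl
    obtain ⟨ρ, -, -, h1⟩ := hw 0 (fun τ hτ => absurd rfl hτ)
    rw [map_zero] at h1
    exact h1 rfl
  · funext ρ
    by_contra hne
    obtain ⟨j, hj, hj'⟩ := exists_of_bd_ne hne
    exact hne (hzc ρ (subset_univ _) (Mt.down_ind hj (hz _ hj').2.2))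

lemma not_ex_of_isZ {b : V → ℕ} {i : ℕ} {z : Finset V → K} (hz : IsZ G s i b z) (hne : z ≠ 0) :
    ¬ Ex K (Mt G s) univ b i := by
  intro h
  obtain ⟨τ₀, hτ₀⟩ := Function.ne_iff.mp hne
  obtain ⟨h1, h2⟩ := hz.1 τ₀ hτ₀
  have h3 := h2.sz_eq
  rw [sz_add, sz_ind, h1] at h3
  obtain ⟨w, hw, hw'⟩ := h z (fun τ hτ => ⟨subset_univ _, (hz.1 τ hτ).1, (hz.1 τ hτ).2.mt⟩)
    (fun ρ _ _ => by rw [hz.2]; rfl)
  have hw0 : w = 0 := by
    funext τ
    by_contra hne
    obtain ⟨-, h4, h5⟩ := hw τ hne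
    have h6 := h5.sz_le
    rw [sz_add, sz_ind, h4] at h6
    omega
  have := hw' τ₀ (subset_univ _) h2.mt
  rw [hw0, map_zero] at this
  exact hτ₀ this.symm

lemma isZ_of_cycle {b : V → ℕ} {i : ℕ} {z : Finset V → K}
    (hz : ∀ τ, z τ ≠ 0 → τ.card = i ∧ Mt G s (b + ind τ)) (hb : bd z = 0)
    (hs : 2 * s ≤ sz b + i) : IsZ G s i b z := by
  refine ⟨fun τ hτ => ?_, hb⟩
  obtain ⟨h1, h2⟩ := hz τ hτ
  refine ⟨h1, mat_of_mt h2 ?_⟩
  have h3 := h2.sz_le
  rw [sz_add, sz_ind, h1] at h3 ⊢
  omega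

/-- The full skeleton. -/
lemma skeleton [Nonempty V] {t : ℕ} (ht : t ≤ s) : Ex K (Mt G (s + 1)) univ 0 t := by
  by_contra h
  obtain ⟨z, hz0, hz, hbz⟩ := exists_cycle_of_not_ex h
  obtain ⟨x⟩ := ‹Nonempty V›
  apply h
  intro z hz hzc
  have hbz : bd z = 0 := by
    funext ρ
    by_contra hne
    obtain ⟨j, hj, hj'⟩ := exists_of_bd_ne hne
    exact hne (hzc ρ (subset_univ _) (Mt.down_ind hj (hz _ hj').2.2))
  refine ⟨ext x z, fun τ hτ => ?_, fun ρ _ _ => ?_⟩
  · have hxτ : x ∈ τ := by
      by_contra h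
      exact hτ (ext_of_notMem _ h)
    rw [ext_of_mem _ hxτ] at hτ
    obtain ⟨-, h4, -⟩ := hz _ (right_ne_zero_of_mul hτ)
    rw [card_erase_of_mem hxτ] at h4
    have h5 := card_pos.mpr ⟨x, hxτ⟩
    refine ⟨subset_univ _, by omega, 0, 0, Mat.zero, ?_, ?_⟩
    · exact le_of fun z => Nat.zero_le _
    · rw [sz_add, sz_ind, sz_zero]; omega
  · rw [bd_ext, hbz, map_zero, sub_zero]

/-- Basis chain. -/
def bs (K : Type*) [Field K] (σ : Finset V) : Finset V → K := Pi.single σ 1

lemma bd_bs (T : Finset V) :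
    bd (bs K T) = ∑ j ∈ T, sg K j (T.erase j) • bs K (T.erase j) := by
  funext ρ
  rw [bd_apply, Finset.sum_apply]
  simp only [bs, Pi.smul_apply, smul_eq_mul, Pi.single_apply, mul_ite, mul_one, mul_zero]
  rw [← sum_filter, ← sum_filter]
  refine sum_congr ?_ ?_
  · ext j
    simp only [mem_filter, mem_compl]
    constructor
    · rintro ⟨h1, rfl⟩
      exact ⟨mem_insert_self _ _, (erase_insert h1).symm⟩
    · rintro ⟨h1, rfl⟩
      exact ⟨notMem_erase _ _, insert_erase h1⟩
  · intro j hj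
    rw [mem_filter] at hj
    rw [← hj.2]

/-- Chains in the complex. -/
def CC (K : Type*) [Field K] (G : SimpleGraph V) (s : ℕ) : Submodule K (Finset V → K) where
  carrier := {w | ∀ τ, w τ ≠ 0 → τ.card = s + 1 ∧ Mt G s (0 + ind τ)}
  zero_mem' := fun τ hτ => absurd rfl hτ
  add_mem' := by
    intro a b ha hb τ hτ
    by_cases h : a τ = 0
    · apply hb
      intro h'
      apply hτ
      rw [Pi.add_apply, h, h', add_zero]
    · exact ha τ h
  smul_mem' := by
    intro c a ha τ hτ
    apply ha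
    intro h
    apply hτ
    rw [Pi.smul_apply, h, smul_zero]

lemma bs_mem {u v : V} (huv : G.Adj u v) {σ : Finset V} (hu : u ∈ σ) (hv : v ∈ σ)
    (hσ : σ.card = s + 1) : bd (bs K σ) ∈ (CC K G s).map bd := by
  refine Submodule.mem_map_of_mem ?_
  intro τ hτ
  have h1 : τ = σ := by
    by_contra hne
    apply hτ
    rw [bs, Pi.single_apply, if_neg hne]
  subst h1
  refine ⟨hσ, 1, 0 + dl u + dl v, Mat.zero.add huv, le_of fun z => ?_, ?_⟩
  · simp only [Pi.add_apply, Pi.zero_apply, ind, dl]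
    have hne := huv.ne
    by_cases h1 : z = u
    · subst h1
      rw [if_pos rfl, if_neg hne, if_pos hu]
    · by_cases h2 : z = v
      · subst h2
        rw [if_neg h1, if_pos rfl, if_pos hv]
      · rw [if_neg h1, if_neg h2]; exact Nat.zero_le _
  · rw [sz_add, sz_zero, sz_ind]; omega

lemma slide {x y : V} (p : G.Walk x y) : ∀ σ : Finset V, x ∈ σ → y ∈ σ → x ≠ y →
    σ.card = s + 1 → bd (bs K σ) ∈ (CC K G s).map bd := by
  induction p with
  | nil => intro σ _ _ h; exact absurd rfl h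
  | @cons x v y h p ih =>
    intro σ hx hy hxy hσ
    by_cases hv : v ∈ σ
    · exact bs_mem h hx hv hσ
    · have h0 : bd (bd (bs K (insert v σ))) = 0 := bd_bd _
      rw [bd_bs, map_sum, sum_insert hv, erase_insert hv, map_smul] at h0
      have h1 : ∑ j ∈ σ, bd (sg K j ((insert v σ).erase j) • bs K ((insert v σ).erase j)) ∈
          (CC K G s).map bd := by
        refine Submodule.sum_mem _ fun j hj => ?_
        rw [map_smul]
        refine Submodule.smul_mem _ _ ?_
        have hjv : j ≠ v := by rintro rfl; exact hv hj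
        have hcard : ((insert v σ).erase j).card = s + 1 := by
          rw [card_erase_of_mem (mem_insert_of_mem hj), card_insert_of_notMem hv, hσ]; omega
        by_cases hjx : j = x
        · subst hjx
          refine ih _ ?_ ?_ ?_ hcard
          · exact mem_erase.mpr ⟨hjv.symm, mem_insert_self _ _⟩
          · exact mem_erase.mpr ⟨hxy.symm, mem_insert_of_mem hy⟩
          · rintro rfl; exact hv hy
        · refine bs_mem h ?_ ?_ hcard
          · exact mem_erase.mpr ⟨Ne.symm hjx, mem_insert_of_mem hx⟩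
          · exact mem_erase.mpr ⟨hjv.symm, mem_insert_self _ _⟩
      have h2 : sg K v σ • bd (bs K σ) ∈ (CC K G s).map bd := by
        rw [add_eq_zero_iff_eq_neg] at h0
        rw [h0]
        exact Submodule.neg_mem _ h1
      have h3 := Submodule.smul_mem _ (sg K v σ) h2
      rwa [smul_smul, sg_mul_self, one_smul] at h3

/-- Exactness at `b = 0` and the spot `s`. -/
lemma slide_ex (hconn : G.Preconnected) [Nonempty V] (hs : 1 ≤ s) :
    Ex K (Mt G s) univ 0 s := by
  intro z hz hzc
  have hbz : bd z = 0 := by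
    funext ρ
    by_contra hne
    obtain ⟨j, hj, hj'⟩ := exists_of_bd_ne hne
    exact hne (hzc ρ (subset_univ _) (Mt.down_ind hj (hz _ hj').2.2))
  obtain ⟨x⟩ := ‹Nonempty V›
  have h1 : z = ∑ σ : Finset V, ext x z σ • bd (bs K σ) := by
    have h2 : ext x z = ∑ σ : Finset V, ext x z σ • bs K σ := by
      funext τ
      rw [Finset.sum_apply]
      simp [bs, Pi.single_apply]
    have h3 : bd (ext x z) = z := by rw [bd_ext, hbz, map_zero, sub_zero]
    conv_lhs => rw [← h3, h2]
    rw [map_sum]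
    exact sum_congr rfl fun σ _ => by rw [map_smul]
  have h4 : z ∈ (CC K G s).map bd := by
    rw [h1]
    refine Submodule.sum_mem _ fun σ _ => ?_
    by_cases h0 : ext x z σ = 0
    · rw [h0, zero_smul]; exact Submodule.zero_mem _
    · refine Submodule.smul_mem _ _ ?_
      have hxσ : x ∈ σ := by
        by_contra h
        exact h0 (ext_of_notMem _ h)
      rw [ext_of_mem _ hxσ] at h0
      obtain ⟨-, h5, -⟩ := hz _ (right_ne_zero_of_mul h0)
      rw [card_erase_of_mem hxσ] at h5
      have h6 := card_pos.mpr ⟨x, hxσ⟩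
      have h7 : σ.card = s + 1 := by omega
      obtain ⟨y, hy, hyx⟩ : ∃ y ∈ σ, y ≠ x := by
        have : 1 < σ.card := by omega
        obtain ⟨a, ha, b, hb, hab⟩ := one_lt_card.mp this
        by_cases hax : a = x
        · exact ⟨b, hb, fun e => hab (hax.trans e.symm)⟩
        · exact ⟨a, ha, hax⟩
      obtain ⟨p⟩ := hconn x y
      exact slide p σ hxσ hy hyx.symm h7
  obtain ⟨w, hw, hw'⟩ := h4
  refine ⟨w, fun τ hτ => ⟨subset_univ _, hw τ hτ⟩, fun ρ _ _ => ?_⟩
  rw [hw']

/-- Descent. -/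
theorem comb_one (hconn : G.Preconnected) (hG : ∀ v, ∃ w, G.Adj v w) [Nonempty V] {b : V → ℕ}
    {i : ℕ} (his : i ≤ s) (h : ¬ Ex K (Mt G (s + 1)) univ b i) :
    ∃ b' u v, G.Adj u v ∧ b = b' + dl u + dl v ∧ ¬ Ex K (Mt G s) univ b' i := by
  have hb : b ≠ 0 := by
    rintro rfl
    exact h (skeleton his)
  have h1 : 2 * (s + 1) ≤ sz b + i := by
    by_contra hcon
    exact h (lin hconn hG hb (by omega))
  obtain ⟨z, hz0, hz, hbz⟩ := exists_cycle_of_not_ex h
  have hZ := isZ_of_cycle hz hbz h1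
  have h2 : sz b + i = 2 * (s + 1) := by
    obtain ⟨τ, hτ⟩ := Function.ne_iff.mp hz0
    obtain ⟨h3, h4⟩ := hZ.1 τ hτ
    have h5 := h4.sz_eq
    rw [sz_add, sz_ind, h3] at h5
    exact h5
  have h3 := strong hconn hG i s b z his h2 hZ
  by_contra hcon
  push Not at hcon
  apply hz0
  have h4 : TT K G s i b = ⊥ := by
    unfold TT
    rw [Submodule.span_eq_bot]
    rintro w ⟨b', u, v, huv, hb', hw⟩
    by_contra hne
    exact not_ex_of_isZ hw hne (hcon b' u v huv hb')
  rw [h4, Submodule.mem_bot] at h3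
  exact h3

/-- Ascent. -/
theorem comb_two (hconn : G.Preconnected) (hG : ∀ v, ∃ w, G.Adj v w) [Nonempty V] {b : V → ℕ}
    {i : ℕ} (hi : 1 ≤ i) (his : i ≤ s) {u v : V} (huv : G.Adj u v)
    (h : ¬ Ex K (Mt G s) univ b i) : ¬ Ex K (Mt G (s + 1)) univ (b + dl u + dl v) i := by
  obtain ⟨s', rfl⟩ : ∃ s', s = s' + 1 := ⟨s - 1, by omega⟩
  have hb : b ≠ 0 := by
    rintro rfl
    rcases Nat.lt_or_ge i (s' + 1) with h1 | h1
    · exact h (skeleton (by omega))
    · obtain rfl : i = s' + 1 := by omega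
      exact h (slide_ex hconn hi)
  have h1 : 2 * (s' + 1) ≤ sz b + i := by
    by_contra hcon
    exact h (lin hconn hG hb (by omega))
  obtain ⟨z, hz0, hz, hbz⟩ := exists_cycle_of_not_ex h
  have hZ := isZ_of_cycle hz hbz h1
  refine not_ex_of_isZ (z := z) ⟨fun τ hτ => ?_, hbz⟩ hz0
  obtain ⟨h2, h3⟩ := hZ.1 τ hτ
  refine ⟨h2, (h3.add huv).cast ?_⟩
  funext t; simp only [Pi.add_apply]; omega

lemma Mt.anti {c : V → ℕ} : ∀ (n : ℕ) (d : V → ℕ), sz d ≤ sz c + n → Mt G s d → c ≤ d →
    Mt G s c := by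
  intro n
  induction n with
  | zero =>
    intro d hn hd hcd
    rw [eq_of_le_of_sz_le hcd (by omega)]
    exact hd
  | succ n ih =>
    intro d hn hd hcd
    by_cases hx : ∃ x, c x < d x
    · obtain ⟨x, hx⟩ := hx
      obtain ⟨d', rfl⟩ := exists_sub_dl (b := d) (r := x) (by omega)
      rw [sz_add, sz_dl] at hn
      refine ih d' (by omega) hd.down (le_of fun z => ?_)
      have h1 := le_at hcd z
      simp only [Pi.add_apply] at h1 hx
      by_cases hz : z = x
      · subst hz; rw [dl_self] at hx; omega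
      · rw [dl_ne hz] at h1; omega
    · push Not at hx
      have : c = d := le_antisymm hcd (le_of hx)
      rw [this]; exact hd

/-- Covering form of `Mt`. -/
lemma mt_iff_cover (hG : ∀ v, ∃ w, G.Adj v w) [Nonempty V] {c : V → ℕ} :
    Mt G s c ↔ ∃ d, Mat G s d ∧ c ≤ d := by
  constructor
  · -- cover greedily
    rintro ⟨m, d, hd, hle, hs⟩
    have key : ∀ (n : ℕ) (m : ℕ) (d : V → ℕ), Mat G m d →
        sz (fun x => c x - d x) ≤ n → ∃ d', Mat G (m + n) d' ∧ c ≤ d' := by
      intro n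
      induction n with
      | zero =>
        intro m d hd h0
        refine ⟨d, hd, le_of fun z => ?_⟩
        have h1 : sz (fun x => c x - d x) = 0 := by omega
        have h2 : c z - d z = 0 := (Finset.sum_eq_zero_iff.mp h1) z (mem_univ _)
        omega
      | succ n ih =>
        intro m d hd h0
        by_cases hx : ∃ x, d x < c x
        · obtain ⟨x, hx⟩ := hx
          obtain ⟨y, hy⟩ := hG x
          obtain ⟨d', hd', hc⟩ := ih (m + 1) (d + dl x + dl y) (hd.add hy) (by
            have : sz ((fun z => c z - (d + dl x + dl y) z) + dl x) ≤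
                sz (fun x => c x - d x) := by
              refine sz_mono (le_of fun z => ?_)
              simp only [Pi.add_apply]
              by_cases hz : z = x
              · subst hz; rw [dl_self]; omega
              · rw [dl_ne hz]; omega
            rw [sz_add, sz_dl] at this
            omega)
          exact ⟨d', by rw [show m + (n + 1) = m + 1 + n by ring]; exact hd', hc⟩
        · push Not at hx
          obtain ⟨x⟩ := ‹Nonempty V›
          obtain ⟨y, hy⟩ := hG x
          have h1 : sz (fun z => c z - (d + dl x + dl y) z) ≤ n := by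
            have : sz (fun z => c z - (d + dl x + dl y) z) = 0 := by
              refine sum_eq_zero fun z _ => ?_
              have := hx z
              simp only [Pi.add_apply]
              omega
            omega
          obtain ⟨d', hd', hc⟩ := ih (m + 1) (d + dl x + dl y) (hd.add hy) h1
          exact ⟨d', by rw [show m + (n + 1) = m + 1 + n by ring]; exact hd', hc⟩
    have h1 := hd.sz_eq
    have h2 := sz_mono hle
    have h3 : sz (fun x => c x - d x) ≤ s - m := by
      have : sz ((fun x => c x - d x) + d) = sz c := by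
        congr 1
        funext z
        have := le_at hle z
        simp only [Pi.add_apply]
        omega
      rw [sz_add] at this
      omega
    obtain ⟨d', hd', hc⟩ := key (s - m) m d hd h3
    exact ⟨d', by rw [show m + (s - m) = s by omega] at hd'; exact hd', hc⟩
  · rintro ⟨d, hd, hle⟩
    exact Mt.anti (sz d) d (by omega) hd.mt hle

end Pool.Agent.Lib.MP_97fe03_al
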