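import Pool.Agent.Lib.MP_97fe03_al.Comb

/-!
The predicates describing the relative complexes, and the local exchange property `star`.
-/

set_option autoImplicit false
set_option linter.unusedSectionVars false

namespace Pool.Agent.Lib.MP_97fe03_al

variable {V : Type*} [DecidableEq V] [Fintype V]

/-- Base predicate: `c` is not coverable by `s` edges, some `x ∈ X` and some `y ∈ Y` are missed by
maximum matchings. -/
def PP (G : SimpleGraph V) (s : ℕ) (X Y : Set V) (c : V → ℕ) : Prop :=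
  ¬ Mt G s c ∧ (∃ x ∈ X, Ind G s c (dl x)) ∧ ∃ y ∈ Y, Ind G s c (dl y)

/-- `c` satisfies `PP` but no `c + dl y`, `y ∈ U`, does. -/
def SS (G : SimpleGraph V) (s : ℕ) (X Y : Set V) (U : Finset V) (c : V → ℕ) : Prop :=
  PP G s X Y c ∧ ∀ y ∈ U, ¬ PP G s X Y (c + dl y)

variable {G : SimpleGraph V} {s : ℕ} {X Y : Set V} {r : V}

lemma add_right_comm' (c : V → ℕ) (x y : V) : c + dl x + dl y = c + dl y + dl x :=
  add_right_comm _ _ _

lemma PP.conv {c : V → ℕ} {j v : V} (h : PP G s X Y c) (h' : PP G s X Y (c + dl j + dl v)) :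
    PP G s X Y (c + dl j) := by
  have hj : ¬ Mt G s (c + dl j) := fun hM => h.1 hM.down
  obtain ⟨-, ⟨x, hx, hx'⟩, y, hy, hy'⟩ := h'
  exact ⟨hj, ⟨x, hx, hx'.down hj⟩, y, hy, hy'.down hj⟩

lemma PP.conv' {c : V → ℕ} {j v : V} (h : PP G s X Y c) (h' : PP G s X Y (c + dl j + dl v)) :
    PP G s X Y (c + dl v) := by
  rw [add_right_comm'] at h'
  exact h.conv h'

lemma PP.root {c : V → ℕ}
    (h : PP G s X Y c) {n₁ n₂ : V} (hI : Ind G s c (dl n₁ + dl n₂)) (h₁ : G.Adj r n₁)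
    (h₂ : G.Adj r n₂) : PP G s X Y (c + dl r) := by
  obtain ⟨hc, ⟨x, hx, hx'⟩, y, hy, hy'⟩ := h
  have key : ∀ z, Ind G s c (dl z) → Ind G s (c + dl r) (dl z) := by
    intro z hz
    rw [ind_add_iff hc]
    rcases aug_one hc hz hI with h | h
    · exact ⟨n₁, h₁, h⟩
    · exact ⟨n₂, h₂, h⟩
  exact ⟨fun hM => hc hM.down, ⟨x, hx, key x hx'⟩, y, hy, key y hy'⟩

lemma PP.spread (hX : ∀ x ∈ X, G.Adj r x) (hY : ∀ y ∈ Y, G.Adj r y) {c : V → ℕ}
    (h : PP G s X Y c) (hr : ¬ PP G s X Y (c + dl r)) {z w y : V}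
    (hI : Ind G s c (dl z + dl w)) (hz : G.Adj r z) (hw : G.Adj y w) :
    PP G s X Y (c + dl y) := by
  have hP := h
  obtain ⟨hc, ⟨x, hx, hx'⟩, x', hy, hy'⟩ := h
  have key : ∀ t, G.Adj r t → Ind G s c (dl t) → Ind G s (c + dl y) (dl t) := by
    intro t ht htI
    rw [ind_add_iff hc]
    rcases aug_one hc htI hI with h | h
    · exact absurd (hP.root h ht hz) hr
    · exact ⟨w, hw, h⟩
  exact ⟨fun hM => hc hM.down, ⟨x, hx, key x (hX x hx) hx'⟩, x', hy, key x' (hY x' hy) hy'⟩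

lemma SS.noInd (hX : ∀ x ∈ X, G.Adj r x) (hY : ∀ y ∈ Y, G.Adj r y) {c : V → ℕ} {U : Finset V}
    (h : SS G s X Y U c) (hr : r ∈ U) {y z w : V} (hy : y ∈ U) (hz : G.Adj r z)
    (hw : G.Adj y w) : ¬ Ind G s c (dl z + dl w) := by
  intro hI
  exact h.2 y hy (h.1.spread hX hY (h.2 r hr) hI hz hw)

/-- Upward closedness inside `PP`. -/
lemma SS.up {U : Finset V} {c : V → ℕ} {j : V} (h : SS G s X Y U c)
    (h' : PP G s X Y (c + dl j)) : SS G s X Y U (c + dl j) := by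
  refine ⟨h', fun y hy hP => h.2 y hy ?_⟩
  exact h.1.conv' hP

/-- The pair `(U', x)` is admissible: `x` is attached to `U' ∋ r`, or `U'` is empty and `x = r`. -/
def Adm (G : SimpleGraph V) (r : V) (U' : Finset V) (x : V) : Prop :=
  (U' = ∅ ∧ x = r) ∨ (r ∈ U' ∧ ∃ y ∈ U', G.Adj y x)

/-- The local exchange property. -/
lemma star (hX : ∀ x ∈ X, G.Adj r x) (hY : ∀ y ∈ Y, G.Adj r y) {U U' : Finset V} (hU : U' ⊆ U)
    {x v : V} (hx : Adm G r U' x) {c : V → ℕ} (h₁ : SS G s X Y U' (c + dl v))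
    (h₂ : SS G s X Y U (c + dl x)) (h₃ : PP G s X Y (c + dl x + dl v)) :
    SS G s X Y U' c := by
  -- the pair missed at `c + x`
  obtain ⟨z, hzX, z', hz', hI⟩ : ∃ z, z ∈ X ∧ ∃ z', G.Adj v z' ∧
      Ind G s (c + dl x) (dl z + dl z') := by
    obtain ⟨-, ⟨z, hz, hzI⟩, -⟩ := h₃
    obtain ⟨z', hz', hI⟩ := (ind_add_iff h₂.1.1).mp hzI
    exact ⟨z, hz, z', hz', hI⟩
  have hrz := hX z hzX
  -- Step 1
  have hc : ¬ Mt G s c := by
    intro hM
    have hself : Ind G s (c + dl x) (dl x) := ind_self_iff.mpr hM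
    rcases aug_one h₂.1.1 hself hI with h | h
    · rcases hx with ⟨-, rfl⟩ | ⟨hr, y, hy, hyx⟩
      · exact not_ind_adj h₂.1.1 hrz h
      · refine h₂.noInd hX hY (hU hr) (hU hy) hrz hyx ?_
        rw [add_comm (dl z)]; exact h
    · have h5 : Ind G s (c + dl x + dl v) (dl x) := (ind_add_iff h₂.1.1).mpr ⟨z', hz', h⟩
      rw [add_right_comm', ind_self_iff] at h5
      exact h₁.1.1 h5
  -- Step 2
  have hP : PP G s X Y c := by
    obtain ⟨-, ⟨x₁, hx₁, hx₁'⟩, y₁, hy₁, hy₁'⟩ := h₂.1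
    exact ⟨hc, ⟨x₁, hx₁, hx₁'.down hc⟩, y₁, hy₁, hy₁'.down hc⟩
  refine ⟨hP, fun y hy hPy => ?_⟩
  -- Step 3
  have hr : r ∈ U' := by
    rcases hx with ⟨rfl, -⟩ | ⟨hr, -⟩
    · simp at hy
    · exact hr
  have hA : ∀ p q a : V, G.Adj r p → G.Adj y q → G.Adj x a →
      ¬ Ind G s c (dl p + dl q + dl a) := by
    intro p q a hp hq ha h
    exact h₂.noInd hX hY (hU hr) (hU hy) hp hq ((ind_add_iff hc).mpr ⟨a, ha, h⟩)
  have hB : ∀ p q a : V, G.Adj r p → G.Adj y q → G.Adj v a →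
      ¬ Ind G s c (dl p + dl q + dl a) := by
    intro p q a hp hq ha h
    exact h₁.noInd hX hY hr hy hp hq ((ind_add_iff hc).mpr ⟨a, ha, h⟩)
  obtain ⟨a, ha, hT⟩ := (ind_add_iff hc).mp hI
  obtain ⟨-, ⟨z₁, hz₁, hz₁I⟩, -⟩ := hPy
  obtain ⟨w₁, hw₁, hI₁⟩ := (ind_add_iff hc).mp hz₁I
  rcases aug_two hc hI₁ hT with ⟨h, -⟩ | h | h
  · have h6 : Ind G s c (dl z + dl w₁) := by
      refine h.mono (le_of fun t => ?_)
      simp only [Pi.add_apply]; omega
    rcases aug_two hc h6 hT with ⟨h7, h8⟩ | h7 | h7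
    · rw [dl_self] at h8
      by_cases e1 : z = z'
      · subst e1
        exact hB z w₁ z hrz hw₁ hz' h7
      · by_cases e2 : z = a
        · subst e2
          exact hA z w₁ z hrz hw₁ ha h7
        · rw [dl_ne e1, dl_ne e2] at h8
          omega
    · exact hB z w₁ z' hrz hw₁ hz' h7
    · exact hA z w₁ a hrz hw₁ ha h7
  · exact hB z₁ w₁ z' (hX z₁ hz₁) hw₁ hz' h
  · exact hA z₁ w₁ a (hX z₁ hz₁) hw₁ ha h

/-- Terminal step. -/
lemma SS.term (hX : ∀ x ∈ X, G.Adj r x) (hY : ∀ y ∈ Y, G.Adj r y) (hG : ∀ v, ∃ w, G.Adj v w)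
    {c : V → ℕ} (h : SS G s X Y Finset.univ c) : 2 * s + 1 ≤ sz c := by
  by_contra hcon
  obtain ⟨hc, ⟨x, hx, m, d, hd, hle, hs⟩, -⟩ := h.1
  have h1 : s + m < sz c := by
    by_contra h2
    refine hc ⟨m, d, hd, le_of fun z => ?_, by omega⟩
    have := le_at hle z
    simp only [Pi.add_apply] at this
    omega
  have h2 := hd.sz_eq
  obtain ⟨w, hw⟩ : ∃ w, (d + dl x) w < c w := by
    apply exists_lt_of_sz_lt
    simp only [sz_add, sz_dl]
    omega
  obtain ⟨y, hy⟩ := hG w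
  refine h.noInd hX hY (Finset.mem_univ r) (Finset.mem_univ y) (hX x hx) hy.symm ?_
  refine ⟨m, d, hd, le_of fun z => ?_, hs⟩
  have h3 := le_at hle z
  simp only [Pi.add_apply] at h3 hw ⊢
  by_cases hz : z = w
  · subst hz; rw [dl_self]; omega
  · rw [dl_ne hz]; omega

/-- Non-freeness of `x` at `c` with respect to `U'`. -/
def NF (G : SimpleGraph V) (s : ℕ) (X Y : Set V) (U' : Finset V) (x : V) (c : V → ℕ) : Prop :=
  ∃ c', c = c' + dl x ∧ ¬ SS G s X Y U' c'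

lemma nf_add_iff {U' : Finset V} {x : V} {c : V → ℕ} :
    NF G s X Y U' x (c + dl x) ↔ ¬ SS G s X Y U' c := by
  constructor
  · rintro ⟨c', h, h'⟩
    rwa [add_right_cancel h]
  · intro h
    exact ⟨c, rfl, h⟩

lemma split_off {c c' : V → ℕ} {v x : V} (h : c + dl v = c' + dl x) (hne : x ≠ v) :
    ∃ c'', c = c'' + dl x ∧ c' = c'' + dl v := by
  refine ⟨fun z => c z - dl x z, ?_, ?_⟩
  · funext z
    have := congrFun h z
    simp only [Pi.add_apply] at this ⊢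
    by_cases hz : z = x
    · subst hz
      rw [dl_self, dl_ne hne] at this
      rw [dl_self]; omega
    · rw [dl_ne hz]; omega
  · funext z
    have := congrFun h z
    simp only [Pi.add_apply] at this ⊢
    by_cases hz : z = x
    · subst hz
      rw [dl_self, dl_ne hne] at this
      rw [dl_self, dl_ne hne]; omega
    · rw [dl_ne hz] at this ⊢; omega

/-- The predicates of the induction. -/
def FF (G : SimpleGraph V) (s : ℕ) (X Y : Set V) (U : Finset V) (B : Set (Finset V × V))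
    (c : V → ℕ) : Prop :=
  SS G s X Y U c ∧ ∀ p ∈ B, NF G s X Y p.1 p.2 c

/-- Admissible data. -/
def AdmB (G : SimpleGraph V) (r : V) (U : Finset V) (B : Set (Finset V × V)) : Prop :=
  ∀ p ∈ B, p.1 ⊆ U ∧ p.2 ∈ U ∧ Adm G r p.1 p.2

lemma NF.up (hX : ∀ x ∈ X, G.Adj r x) (hY : ∀ y ∈ Y, G.Adj r y) {U U' : Finset V} (hU : U' ⊆ U)
    {x v : V} (hx : Adm G r U' x) {c : V → ℕ} (h : NF G s X Y U' x c) (h₂ : SS G s X Y U c)
    (h₃ : PP G s X Y (c + dl v)) : NF G s X Y U' x (c + dl v) := by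
  obtain ⟨c', rfl, h'⟩ := h
  rw [add_right_comm', nf_add_iff]
  intro h₁
  exact h' (star hX hY hU hx h₁ h₂ h₃)

lemma NF.dn {U' : Finset V} {x v : V} (hne : x ≠ v) {c : V → ℕ} (h : NF G s X Y U' x (c + dl v))
    (h₃ : PP G s X Y (c + dl v)) : NF G s X Y U' x c := by
  obtain ⟨c', hc, h'⟩ := h
  obtain ⟨c'', rfl, rfl⟩ := split_off hc hne
  rw [nf_add_iff]
  intro hS
  exact h' (hS.up (hS.1.conv' h₃))

lemma ff_conv {U : Finset V} {B : Set (Finset V × V)} (hB : AdmB G r U B) {c : V → ℕ} {j v : V}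
    (hv : v ∉ U) (h : FF G s X Y U B c) (h' : FF G s X Y U B (c + dl j + dl v)) :
    FF G s X Y U B (c + dl j) := by
  have hP : PP G s X Y (c + dl j) := h.1.1.conv h'.1.1
  refine ⟨h.1.up hP, fun p hp => ?_⟩
  obtain ⟨-, hpU, -⟩ := hB p hp
  exact (h'.2 p hp).dn (fun e : p.2 = v => hv (e ▸ hpU)) h'.1.1

lemma ff_coker (hX : ∀ x ∈ X, G.Adj r x) (hY : ∀ y ∈ Y, G.Adj r y) {U : Finset V}
    {B : Set (Finset V × V)} (hB : AdmB G r U B) {c : V → ℕ} {v : V} :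
    FF G s X Y (insert v U) B c ↔ FF G s X Y U B c ∧ ¬ FF G s X Y U B (c + dl v) := by
  constructor
  · rintro ⟨h, hN⟩
    refine ⟨⟨⟨h.1, fun y hy => h.2 y (Finset.mem_insert_of_mem hy)⟩, hN⟩, fun h' => ?_⟩
    exact h.2 v (Finset.mem_insert_self _ _) h'.1.1
  · rintro ⟨h, h'⟩
    have hv : ¬ PP G s X Y (c + dl v) := by
      intro hP
      refine h' ⟨h.1.up hP, fun p hp => ?_⟩
      obtain ⟨hp1, hp2, hp3⟩ := hB p hp
      exact (h.2 p hp).up hX hY hp1 hp3 h.1 hP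
    refine ⟨⟨h.1.1, fun y hy => ?_⟩, h.2⟩
    rcases Finset.mem_insert.mp hy with rfl | hy
    · exact hv
    · exact h.1.2 y hy

lemma ff_ker (hX : ∀ x ∈ X, G.Adj r x) (hY : ∀ y ∈ Y, G.Adj r y) {U : Finset V}
    {B : Set (Finset V × V)} (hB : AdmB G r U B) {c : V → ℕ} {v : V} (hv : v ∉ U)
    (hadm : Adm G r U v) :
    FF G s X Y (insert v U) (insert (U, v) B) (c + dl v) ↔
      FF G s X Y U B (c + dl v) ∧ ¬ FF G s X Y U B c := by
  constructor
  · rintro ⟨h, hN⟩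
    refine ⟨⟨⟨h.1, fun y hy => h.2 y (Finset.mem_insert_of_mem hy)⟩,
      fun p hp => hN p (Set.mem_insert_of_mem _ hp)⟩, fun h' => ?_⟩
    have := hN (U, v) (Set.mem_insert _ _)
    rw [nf_add_iff] at this
    exact this h'.1
  · rintro ⟨h, h'⟩
    have hS : ¬ SS G s X Y U c := by
      intro hS
      refine h' ⟨hS, fun p hp => ?_⟩
      obtain ⟨hp1, hp2, hp3⟩ := hB p hp
      exact (h.2 p hp).dn (fun e : p.2 = v => hv (e ▸ hp2)) h.1.1
    refine ⟨⟨h.1.1, fun y hy => ?_⟩, fun p hp => ?_⟩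
    · rcases Finset.mem_insert.mp hy with rfl | hy
      · intro hP
        exact hS (star hX hY (Finset.Subset.refl U) hadm h.1 h.1 hP)
      · exact h.1.2 y hy
    · rcases Set.mem_insert_iff.mp hp with rfl | hp
      · exact nf_add_iff.mpr hS
      · exact h.2 p hp

lemma admB_insert {U : Finset V} {B : Set (Finset V × V)} (hB : AdmB G r U B) {v : V}
    (hadm : Adm G r U v) : AdmB G r (insert v U) (insert (U, v) B) := by
  intro p hp
  rcases Set.mem_insert_iff.mp hp with rfl | hp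
  · exact ⟨Finset.subset_insert _ _, Finset.mem_insert_self _ _, hadm⟩
  · obtain ⟨h1, h2, h3⟩ := hB p hp
    exact ⟨h1.trans (Finset.subset_insert _ _), Finset.mem_insert_of_mem h2, h3⟩

lemma admB_mono {U : Finset V} {B : Set (Finset V × V)} (hB : AdmB G r U B) {v : V} :
    AdmB G r (insert v U) B := by
  intro p hp
  obtain ⟨h1, h2, h3⟩ := hB p hp
  exact ⟨h1.trans (Finset.subset_insert _ _), Finset.mem_insert_of_mem h2, h3⟩

end Pool.Agent.Lib.MP_97fe03_al
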