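import Pool.Agent.Lib.MP_97fe03_al.Chain

/-!
Linearity of the relative complexes and the decomposition of cycles.
-/

set_option autoImplicit false
set_option linter.unusedSectionVars false

namespace Pool.Agent.Lib.MP_97fe03_al

open Finset

variable {V : Type*} [LinearOrder V] [Fintype V] {K : Type*} [Field K] {G : SimpleGraph V}
  {s : ℕ} {r : V}

lemma kt_aux {X Y : Set V} (hX : ∀ x ∈ X, G.Adj r x) (hY : ∀ y ∈ Y, G.Adj r y)
    (hconn : G.Preconnected) (hG : ∀ v, ∃ w, G.Adj v w) :
    ∀ (n : ℕ) (U : Finset V) (B : Set (Finset V × V)) (β : V → ℕ) (t : ℕ), Uᶜ.card = n →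
      AdmB G r U B → (U = ∅ ∨ r ∈ U) → sz β + t ≤ 2 * s →
      Ex K (FF G s X Y U B) Uᶜ β t := by
  intro n
  induction n with
  | zero =>
    intro U B β t hn hB hU hs
    have hU' : U = univ := by
      rw [card_eq_zero, compl_eq_empty_iff] at hn
      exact hn
    subst hU'
    intro z hz _
    have hz0 : ∀ τ, z τ = 0 := by
      intro τ
      by_contra hne
      obtain ⟨-, h1, h2⟩ := hz τ hne
      have h3 := SS.term hX hY hG h2.1
      rw [sz_add, sz_ind] at h3
      omega
    refine ⟨0, fun τ hτ => absurd rfl hτ, fun ρ _ _ => ?_⟩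
    rw [map_zero, Pi.zero_apply, hz0]
  | succ n ih =>
    intro U B β t hn hB hU hs
    obtain ⟨v, hv, hadm⟩ : ∃ v, v ∉ U ∧ Adm G r U v := by
      rcases hU with rfl | hr
      · exact ⟨r, notMem_empty r, Or.inl ⟨rfl, rfl⟩⟩
      · have hne : Uᶜ.Nonempty := by
          rw [← card_pos]; omega
        obtain ⟨v₀, hv₀⟩ := hne
        obtain ⟨p⟩ := hconn r v₀
        obtain ⟨d, -, hd1, hd2⟩ := p.exists_boundary_dart (U : Set V) (by exact_mod_cast hr)
          (by simpa using hv₀)
        exact ⟨d.snd, by exact_mod_cast hd2, Or.inr ⟨hr, d.fst, by exact_mod_cast hd1, d.adj⟩⟩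
    have hvU : v ∈ Uᶜ := mem_compl.mpr hv
    have hcard : (insert v U)ᶜ.card = n := by
      rw [compl_insert, card_erase_of_mem hvU]; omega
    have hr' : insert v U = ∅ ∨ r ∈ insert v U := by
      right
      rcases hadm with ⟨-, rfl⟩ | ⟨hr, -⟩
      · exact mem_insert_self _ _
      · exact mem_insert_of_mem hr
    refine toggle (Pa := FF G s X Y (insert v U) B)
      (Pb := FF G s X Y (insert v U) (insert (U, v) B)) hvU ?_ ?_ ?_ ?_ ?_
    · intro c j k _ hk h h'
      exact ff_conv hB (mem_compl.mp hk) h h'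
    · intro c
      exact ff_coker hX hY hB
    · intro c
      exact ff_ker hX hY hB hv hadm
    · rw [← compl_insert]
      exact ih _ _ _ _ hcard (admB_mono hB) hr' hs
    · intro t' ht
      rw [← compl_insert]
      refine ih _ _ _ _ hcard (admB_insert hB hadm) hr' ?_
      rw [sz_add, sz_dl]; omega

/-- Linearity of the module of `PP`. -/
lemma kt {X Y : Set V} (hX : ∀ x ∈ X, G.Adj r x) (hY : ∀ y ∈ Y, G.Adj r y)
    (hconn : G.Preconnected) (hG : ∀ v, ∃ w, G.Adj v w) {β : V → ℕ} {t : ℕ}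
    (h : sz β + t ≤ 2 * s) : Ex K (PP G s X Y) univ β t := by
  have h1 := kt_aux (K := K) hX hY hconn hG _ ∅ ∅ β t rfl (by intro p hp; simp at hp) (Or.inl rfl) h
  have h2 : FF G s X Y ∅ ∅ = PP G s X Y := by
    funext c
    simp [FF, SS]
  rw [h2, compl_empty] at h1
  exact h1

lemma exists_sub_dl {b : V → ℕ} {r : V} (h : b r ≠ 0) : ∃ β, b = β + dl r := by
  refine ⟨fun z => b z - dl r z, ?_⟩
  funext z
  simp only [Pi.add_apply]
  by_cases hz : z = r
  · subst hz; rw [dl_self]; omega
  · rw [dl_ne hz]; omega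

lemma Mt.down_ind {b : V → ℕ} {j : V} {ρ : Finset V} (hj : j ∉ ρ)
    (h : Mt G s (b + ind (insert j ρ))) : Mt G s (b + ind ρ) := by
  rw [add_ind_insert _ hj] at h
  exact h.down

/-- Linearity of the powers away from multidegree `b = 0`. -/
lemma lin (hconn : G.Preconnected) (hG : ∀ v, ∃ w, G.Adj v w) {b : V → ℕ} {t : ℕ}
    (hb : b ≠ 0) (h : sz b + t ≤ 2 * s + 1) : Ex K (Mt G (s + 1)) univ b t := by
  obtain ⟨r, hr⟩ := Function.ne_iff.mp hb
  obtain ⟨β, rfl⟩ := exists_sub_dl hr
  rw [sz_add, sz_dl] at h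
  intro z hz hzc
  have hbz : bd z = 0 := by
    funext ρ
    by_contra hne
    obtain ⟨j, hj, hj'⟩ := exists_of_bd_ne hne
    exact hne (hzc ρ (subset_univ _) (Mt.down_ind hj (hz _ hj').2.2))
  set N : Set V := {x | G.Adj r x} with hN
  have hX : ∀ x ∈ N, G.Adj r x := fun x hx => hx
  have hP : ∀ c, PP G s N N c ↔ ¬ Mt G s c ∧ Mt G (s + 1) (c + dl r) := by
    intro c
    constructor
    · rintro ⟨h1, ⟨x, hx, hx'⟩, -⟩
      refine ⟨h1, ?_⟩
      rw [mt_iff_ind, ind_add_iff h1]
      exact ⟨x, hx, by rw [zero_add]; exact hx'⟩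
    · rintro ⟨h1, h2⟩
      rw [mt_iff_ind, ind_add_iff h1] at h2
      obtain ⟨x, hx, hx'⟩ := h2
      rw [zero_add] at hx'
      exact ⟨h1, ⟨x, hx, hx'⟩, x, hx, hx'⟩
  obtain ⟨w, hw, hw'⟩ := kt (K := K) hX hX hconn hG (β := β) (t := t) (s := s) (by omega)
    (rst (fun τ => PP G s N N (β + ind τ)) z) (by
      intro τ hτ
      obtain ⟨h1, h2⟩ := rst_ne hτ
      exact ⟨subset_univ _, (hz τ h2).2.1, h1⟩) (by
      intro ρ _ hPρ
      rw [bd_congr (w := z), hbz, Pi.zero_apply]
      intro j hj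
      by_cases h0 : z (insert j ρ) = 0
      · rw [h0]
        by_contra h2
        exact (rst_ne h2).2 h0
      · apply rst_pos
        rw [hP] at hPρ ⊢
        rw [add_ind_insert _ hj]
        refine ⟨fun hM => hPρ.1 hM.down, ?_⟩
        have := (hz _ h0).2.2
        rw [add_right_comm, add_ind_insert _ hj] at this
        exact this)
  set z' : Finset V → K := z - bd w with hz'
  have hz's : ∀ ρ, z' ρ ≠ 0 → ρ.card = t ∧ Mt G s (β + ind ρ) := by
    intro ρ hρ
    have hnP : ¬ PP G s N N (β + ind ρ) := by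
      intro hPρ
      apply hρ
      rw [hz', Pi.sub_apply, hw' ρ (subset_univ _) hPρ, rst_pos hPρ, sub_self]
    have h1 : ρ.card = t ∧ Mt G (s + 1) (β + ind ρ + dl r) := by
      by_cases h0 : z ρ = 0
      · have h2 : bd w ρ ≠ 0 := by
          intro h2
          apply hρ
          rw [hz', Pi.sub_apply, h0, h2, sub_zero]
        obtain ⟨j, hj, hj'⟩ := exists_of_bd_ne h2
        obtain ⟨-, h3, h4⟩ := hw _ hj'
        rw [card_insert_of_notMem hj] at h3
        rw [hP, add_ind_insert _ hj, add_right_comm'] at h4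
        exact ⟨by omega, h4.2.down⟩
      · obtain ⟨-, h3, h4⟩ := hz _ h0
        rw [add_right_comm] at h4
        exact ⟨h3, h4⟩
    refine ⟨h1.1, ?_⟩
    by_contra hcon
    exact hnP ((hP _).mpr ⟨hcon, h1.2⟩)
  have hbz' : bd z' = 0 := by
    rw [hz', map_sub, hbz, bd_bd, sub_zero]
  obtain ⟨x, hx⟩ := hG r
  refine ⟨w + ext x z', ?_, ?_⟩
  · intro τ hτ
    by_cases h0 : w τ = 0
    · have h1 : ext x z' τ ≠ 0 := by
        intro h1
        apply hτ
        rw [Pi.add_apply, h0, h1, add_zero]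
      have hxτ : x ∈ τ := by
        by_contra h
        exact h1 (ext_of_notMem _ h)
      rw [ext_of_mem _ hxτ] at h1
      obtain ⟨h2, h3⟩ := hz's _ (right_ne_zero_of_mul h1)
      refine ⟨subset_univ _, ?_, ?_⟩
      · rw [card_erase_of_mem hxτ] at h2
        have := card_pos.mpr ⟨x, hxτ⟩
        omega
      · have h4 := h3.up hx
        rw [← insert_erase hxτ, add_ind_insert _ (notMem_erase x τ), add_right_comm β]
        exact h4
    · obtain ⟨h1, h2, h3⟩ := hw τ h0
      refine ⟨h1, h2, ?_⟩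
      rw [hP] at h3
      rw [add_right_comm]
      exact h3.2
  · intro ρ _ _
    rw [map_add, bd_ext, hbz', map_zero, sub_zero, Pi.add_apply, hz', Pi.sub_apply]
    ring

/-- Splitting of relative cycles. -/
lemma split_sum (hconn : G.Preconnected) (hG : ∀ v, ∃ w, G.Adj v w) {β : V → ℕ} {i : ℕ}
    (hβ : sz β + i = 2 * s) : ∀ (X : Finset V), (∀ x ∈ X, G.Adj r x) → ∀ z : Finset V → K,
      (∀ τ, z τ ≠ 0 → τ.card = i + 1 ∧ ¬ Mt G s (β + ind τ) ∧
        ∃ x ∈ X, Ind G s (β + ind τ) (dl x)) →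
      (∀ ρ, bd z ρ ≠ 0 → Mt G s (β + ind ρ)) →
      ∃ f : V → Finset V → K, z = ∑ x ∈ X, f x ∧ ∀ x ∈ X,
        (∀ τ, f x τ ≠ 0 → τ.card = i + 1 ∧ ¬ Mt G s (β + ind τ) ∧
          Ind G s (β + ind τ) (dl x)) ∧
        (∀ ρ, bd (f x) ρ ≠ 0 → Mt G s (β + ind ρ)) := by
  intro X
  induction X using Finset.induction_on with
  | empty =>
    intro _ z hz _
    refine ⟨fun _ => 0, ?_, by simp⟩
    funext τ
    simp only [sum_empty, Pi.zero_apply]
    by_contra hne
    obtain ⟨-, -, x, hx, -⟩ := hz τ hne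
    simp at hx
  | insert x X' hx ih =>
    intro hX z hz hzc
    set z2 : Finset V → K := rst (fun τ => Ind G s (β + ind τ) (dl x)) z with hz2
    set z1 : Finset V → K := z - z2 with hz1
    have hz2s : ∀ τ, z2 τ ≠ 0 → τ.card = i + 1 ∧ ¬ Mt G s (β + ind τ) ∧
        Ind G s (β + ind τ) (dl x) := by
      intro τ hτ
      obtain ⟨h1, h2⟩ := rst_ne hτ
      exact ⟨(hz τ h2).1, (hz τ h2).2.1, h1⟩
    have hz1s : ∀ τ, z1 τ ≠ 0 → τ.card = i + 1 ∧ ¬ Mt G s (β + ind τ) ∧
        ∃ x ∈ X', Ind G s (β + ind τ) (dl x) := by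
      intro τ hτ
      by_cases h1 : Ind G s (β + ind τ) (dl x)
      · exfalso
        apply hτ
        rw [hz1, Pi.sub_apply, hz2, rst_pos h1, sub_self]
      · rw [hz1, Pi.sub_apply, hz2, rst_neg h1, sub_zero] at hτ
        obtain ⟨h2, h3, y, hy, h4⟩ := hz τ hτ
        refine ⟨h2, h3, y, ?_, h4⟩
        rcases mem_insert.mp hy with rfl | hy
        · exact absurd h4 h1
        · exact hy
    set P := PP G s {x} (X' : Set V) with hP
    -- off the covered cells, bd z1 is supported on P
    have key : ∀ ρ, ¬ Mt G s (β + ind ρ) → bd z1 ρ ≠ 0 → P (β + ind ρ) := by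
      intro ρ hρ h1
      have h2 : bd z ρ = 0 := by
        by_contra h2
        exact hρ (hzc ρ h2)
      have h3 : bd z2 ρ ≠ 0 := by
        intro h3
        apply h1
        rw [hz1, map_sub, Pi.sub_apply, h2, h3, sub_zero]
      obtain ⟨j, hj, hj'⟩ := exists_of_bd_ne h1
      obtain ⟨k, hk, hk'⟩ := exists_of_bd_ne h3
      obtain ⟨-, -, y, hy, h4⟩ := hz1s _ hj'
      obtain ⟨-, -, h5⟩ := hz2s _ hk'
      rw [add_ind_insert _ hj] at h4
      rw [add_ind_insert _ hk] at h5
      exact ⟨hρ, ⟨x, rfl, h5.down hρ⟩, y, hy, h4.down hρ⟩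
    set y0 : Finset V → K := rst (fun τ => P (β + ind τ)) (bd z1) with hy0
    obtain ⟨w, hw, hw'⟩ := kt (K := K) (X := {x}) (Y := (X' : Set V)) (r := r)
      (fun y hy => by
        rw [Set.mem_singleton_iff.mp hy]; exact hX x (mem_insert_self _ _))
      (fun y hy => hX y (mem_insert_of_mem hy)) hconn hG (β := β) (t := i) (s := s) (by omega)
      y0 (by
        intro τ hτ
        obtain ⟨h1, h2⟩ := rst_ne hτ
        obtain ⟨j, hj, hj'⟩ := exists_of_bd_ne h2
        have h3 := (hz1s _ hj').1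
        rw [card_insert_of_notMem hj] at h3
        exact ⟨subset_univ _, by omega, h1⟩) (by
        intro ρ _ hPρ
        rw [bd_congr (w := bd z1), bd_bd, Pi.zero_apply]
        intro j hj
        by_cases h1 : P (β + ind (insert j ρ))
        · rw [hy0, rst_pos h1]
        · rw [hy0, rst_neg h1]
          by_contra h2
          refine h1 (key _ ?_ (Ne.symm h2))
          intro hM
          exact hPρ.1 (Mt.down_ind hj hM))
    have hA1 : ∀ τ, (z1 - w) τ ≠ 0 → τ.card = i + 1 ∧ ¬ Mt G s (β + ind τ) ∧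
        ∃ x ∈ X', Ind G s (β + ind τ) (dl x) := by
      intro τ hτ
      by_cases h0 : z1 τ = 0
      · have h1 : w τ ≠ 0 := by
          intro h1
          apply hτ
          rw [Pi.sub_apply, h0, h1, sub_zero]
        obtain ⟨-, h2, h3, -, y, hy, h4⟩ := hw τ h1
        exact ⟨h2, h3, y, hy, h4⟩
      · exact hz1s τ h0
    have hA2 : ∀ ρ, bd (z1 - w) ρ ≠ 0 → Mt G s (β + ind ρ) := by
      intro ρ hρ
      by_contra hcon
      apply hρ
      rw [map_sub, Pi.sub_apply]
      by_cases h1 : P (β + ind ρ)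
      · rw [hw' ρ (subset_univ _) h1, hy0, rst_pos h1, sub_self]
      · have h2 : bd z1 ρ = 0 := by
          by_contra h2
          exact h1 (key ρ hcon h2)
        have h3 : bd w ρ = 0 := by
          by_contra h3
          obtain ⟨j, hj, hj'⟩ := exists_of_bd_ne h3
          obtain ⟨-, -, h4, ⟨y₁, hy₁, h5⟩, y₂, hy₂, h6⟩ := hw _ hj'
          rw [add_ind_insert _ hj] at h5 h6
          exact h1 ⟨hcon, ⟨y₁, hy₁, h5.down hcon⟩, y₂, hy₂, h6.down hcon⟩
        rw [h2, h3, sub_zero]
    have hB1 : ∀ τ, (z2 + w) τ ≠ 0 → τ.card = i + 1 ∧ ¬ Mt G s (β + ind τ) ∧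
        Ind G s (β + ind τ) (dl x) := by
      intro τ hτ
      by_cases h0 : z2 τ = 0
      · have h1 : w τ ≠ 0 := by
          intro h1
          apply hτ
          rw [Pi.add_apply, h0, h1, add_zero]
        obtain ⟨-, h2, h3, ⟨y, hy, h4⟩, -⟩ := hw τ h1
        rw [Set.mem_singleton_iff.mp hy] at h4
        exact ⟨h2, h3, h4⟩
      · exact hz2s τ h0
    have hsum : z = (z2 + w) + (z1 - w) := by
      rw [hz1]; abel
    have hB2 : ∀ ρ, bd (z2 + w) ρ ≠ 0 → Mt G s (β + ind ρ) := by
      intro ρ hρ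
      by_contra hcon
      have h1 : bd z ρ = 0 := by
        by_contra h2
        exact hcon (hzc ρ h2)
      have h2 : bd (z1 - w) ρ = 0 := by
        by_contra h2
        exact hcon (hA2 ρ h2)
      apply hρ
      have h3 : bd z ρ = bd (z2 + w) ρ + bd (z1 - w) ρ := by
        conv_lhs => rw [hsum]
        rw [map_add, Pi.add_apply]
      rw [h1, h2, add_zero] at h3
      exact h3.symm
    obtain ⟨f, hf, hf'⟩ := ih (fun y hy => hX y (mem_insert_of_mem hy)) (z1 - w) hA1 hA2
    refine ⟨Function.update f x (z2 + w), ?_, ?_⟩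
    · rw [sum_insert hx, Function.update_self]
      have : ∑ y ∈ X', Function.update f x (z2 + w) y = ∑ y ∈ X', f y := by
        refine sum_congr rfl fun y hy => ?_
        rw [Function.update_of_ne]
        rintro rfl
        exact hx hy
      rw [this, ← hf]
      exact hsum
    · intro y hy
      by_cases hyx : y = x
      · subst hyx
        rw [Function.update_self]
        exact ⟨hB1, hB2⟩
      · rw [Function.update_of_ne hyx]
        exact hf' y ((mem_insert.mp hy).resolve_left hyx)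

/-- Top degree cycles. -/
def IsZ (G : SimpleGraph V) (s i : ℕ) (b : V → ℕ) (z : Finset V → K) : Prop :=
  (∀ τ, z τ ≠ 0 → τ.card = i ∧ Mat G s (b + ind τ)) ∧ bd z = 0

/-- Span of the cycles coming from smaller powers. -/
def TT (K : Type*) [Field K] (G : SimpleGraph V) (s i : ℕ) (b : V → ℕ) :
    Submodule K (Finset V → K) :=
  Submodule.span K {z | ∃ b' u v, G.Adj u v ∧ b = b' + dl u + dl v ∧ IsZ G s i b' z}

lemma mat_of_mt {c : V → ℕ} (h : Mt G s c) (hc : sz c = 2 * s) : Mat G s c := by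
  obtain ⟨m, d, hd, hle, hs⟩ := h
  have h1 := hd.sz_eq
  have h2 := sz_mono hle
  obtain rfl : m = s := by omega
  exact hd.cast (eq_of_le_of_sz_le hle (by omega))

lemma Mat.mt {c : V → ℕ} (h : Mat G s c) : Mt G s c :=
  ⟨s, c, h, le_rfl, by rw [h.sz_eq]; omega⟩

lemma mat_of_ind {c : V → ℕ} {x : V} (h : Ind G s c (dl x)) (hc : sz c = 2 * s + 1) :
    ∃ d, Mat G s d ∧ c = d + dl x := by
  obtain ⟨m, d, hd, hle, hs⟩ := h
  have h1 := hd.sz_eq
  have h2 := sz_mono hle
  rw [sz_add, sz_dl] at h2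
  obtain rfl : m = s := by omega
  exact ⟨d, hd, (eq_of_le_of_sz_le hle (by rw [sz_add, sz_dl]; omega)).symm⟩

lemma strong (hconn : G.Preconnected) (hG : ∀ v, ∃ w, G.Adj v w) : ∀ (i s : ℕ) (b : V → ℕ)
    (z : Finset V → K), i ≤ s → sz b + i = 2 * (s + 1) → IsZ G (s + 1) i b z →
    z ∈ TT K G s i b := by
  intro i
  induction i with
  | zero =>
    intro s b z _ _ hz
    by_cases h0 : z = 0
    · rw [h0]; exact Submodule.zero_mem _
    obtain ⟨τ, hτ⟩ := Function.ne_iff.mp h0
    obtain ⟨h1, h2⟩ := hz.1 τ hτ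
    rw [card_eq_zero] at h1
    subst h1
    rw [ind_empty, add_zero] at h2
    obtain ⟨b', u, v, hb', huv, hbb⟩ : ∃ b' u v, Mat G s b' ∧ G.Adj u v ∧ b = b' + dl u + dl v := by
      cases h2 with
      | add h huv => exact ⟨_, _, _, h, huv, rfl⟩
    refine Submodule.subset_span ⟨b', u, v, huv, hbb, fun σ hσ => ?_, hz.2⟩
    obtain ⟨h3, -⟩ := hz.1 σ hσ
    refine ⟨h3, ?_⟩
    rw [card_eq_zero] at h3
    rw [h3, ind_empty, add_zero]
    exact hb'
  | succ i ih =>
    intro s b z his hs hz
    have hb : b ≠ 0 := by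
      rintro rfl
      simp at hs
      omega
    obtain ⟨r, hr⟩ := Function.ne_iff.mp hb
    obtain ⟨β, rfl⟩ := exists_sub_dl hr
    rw [sz_add, sz_dl] at hs
    obtain ⟨s', rfl⟩ : ∃ s', s = s' + 1 := ⟨s - 1, by omega⟩
    classical
    set N : Finset V := univ.filter (fun x => G.Adj r x) with hN
    have hNr : ∀ x ∈ N, G.Adj r x := fun x hx => (mem_filter.mp hx).2
    have hszτ : ∀ τ : Finset V, τ.card = i + 1 → sz (β + ind τ) = 2 * (s' + 1) + 1 := by
      intro τ hτ
      rw [sz_add, sz_ind, hτ]; omega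
    have hnM : ∀ τ : Finset V, τ.card = i + 1 → ¬ Mt G (s' + 1) (β + ind τ) := by
      rintro τ hτ ⟨m, d, hd, hle, hs2⟩
      rw [hszτ τ hτ] at hs2
      have h1 := hd.sz_eq
      have h2 := sz_mono hle
      rw [hszτ τ hτ] at h2
      omega
    obtain ⟨f, hf, hf'⟩ := split_sum (K := K) hconn hG (β := β) (i := i) (s := s' + 1)
      (by omega) N hNr z (by
        intro τ hτ
        obtain ⟨h1, h2⟩ := hz.1 τ hτ
        refine ⟨h1, hnM τ h1, ?_⟩
        rw [add_right_comm β] at h2
        have h3 := h2.mt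
        rw [mt_iff_ind, ind_add_iff (hnM τ h1)] at h3
        obtain ⟨x, hx, hx'⟩ := h3
        rw [zero_add] at hx'
        exact ⟨x, mem_filter.mpr ⟨mem_univ _, hx⟩, hx'⟩) (by
        intro ρ hρ
        rw [hz.2] at hρ
        exact absurd rfl hρ)
    -- the boundaries
    have hw : ∀ x ∈ N, IsZ G (s' + 1) i β (bd (f x)) := by
      intro x hx
      obtain ⟨h1, h2⟩ := hf' x hx
      refine ⟨fun ρ hρ => ?_, bd_bd _⟩
      obtain ⟨j, hj, hj'⟩ := exists_of_bd_ne hρ
      have h3 := (h1 _ hj').1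
      rw [card_insert_of_notMem hj] at h3
      refine ⟨by omega, mat_of_mt (h2 ρ hρ) ?_⟩
      rw [sz_add, sz_ind]; omega
    -- corrected cycles
    have hy : ∀ x ∈ N, f x - ext x (bd (f x)) ∈ TT K G (s' + 1) (i + 1) (β + dl r) := by
      intro x hx
      obtain ⟨h1, h2⟩ := hf' x hx
      set y : Finset V → K := f x - ext x (bd (f x)) with hy
      have hby : bd y = 0 := by
        rw [hy, map_sub, bd_ext, bd_bd, map_zero, sub_zero, sub_self]
      have hys : ∀ τ, y τ ≠ 0 → τ.card = i + 1 ∧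
          ∃ d, Mat G (s' + 1) d ∧ β + ind τ = d + dl x := by
        intro τ hτ
        by_cases h0 : f x τ = 0
        · have h3 : ext x (bd (f x)) τ ≠ 0 := by
            intro h3
            apply hτ
            rw [hy, Pi.sub_apply, h0, h3, sub_zero]
          have hxτ : x ∈ τ := by
            by_contra h
            exact h3 (ext_of_notMem _ h)
          rw [ext_of_mem _ hxτ] at h3
          obtain ⟨h4, h5⟩ := (hw x hx).1 _ (right_ne_zero_of_mul h3)
          rw [card_erase_of_mem hxτ] at h4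
          have := card_pos.mpr ⟨x, hxτ⟩
          refine ⟨by omega, _, h5, ?_⟩
          rw [← add_ind_insert _ (notMem_erase x τ), insert_erase hxτ]
        · obtain ⟨h3, -, h4⟩ := h1 τ h0
          exact ⟨h3, mat_of_ind h4 (hszτ τ h3)⟩
      by_cases hβx : β x = 0
      · have hy0 : y = 0 := by
          funext τ
          by_contra hne
          obtain ⟨-, d, hd, hd'⟩ := hys τ hne
          have hxτ : x ∈ τ := by
            by_contra hxτ
            have := congrFun hd' x
            simp only [Pi.add_apply, dl_self, hβx] at this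
            have h5 : ind τ x = 0 := by simp [ind, hxτ]
            omega
          have h6 : bd y (τ.erase x) = sg K x (τ.erase x) * y τ := by
            rw [bd_apply, sum_eq_single x]
            · rw [insert_erase hxτ]
            · intro j hj hjx
              rw [mem_compl] at hj
              have : y (insert j (τ.erase x)) = 0 := by
                by_contra hne2
                obtain ⟨-, d', hd1, hd2⟩ := hys _ hne2
                have h7 := congrFun hd2 x
                simp only [Pi.add_apply, dl_self, hβx] at h7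
                have h8 : ind (insert j (τ.erase x)) x = 0 := by
                  simp [ind, Ne.symm hjx]
                omega
              rw [this, mul_zero]
            · intro h
              exact absurd (mem_compl.mpr (notMem_erase x τ)) h
          rw [hby, Pi.zero_apply] at h6
          exact (mul_ne_zero (sg_ne_zero x _) hne) h6.symm
        rw [hy0]; exact Submodule.zero_mem _
      · obtain ⟨β', rfl⟩ := exists_sub_dl hβx
        refine Submodule.subset_span ⟨β', x, r, (hNr x hx).symm, rfl, fun τ hτ => ?_, hby⟩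
        obtain ⟨h3, d, hd, hd'⟩ := hys τ hτ
        refine ⟨h3, hd.cast ?_⟩
        rw [add_right_comm] at hd'
        exact (add_right_cancel hd').symm
    -- the second part
    obtain ⟨x₀, hx₀⟩ := hG r
    have hx₀N : x₀ ∈ N := mem_filter.mpr ⟨mem_univ _, hx₀⟩
    have hz2 : ∀ x ∈ N, ∀ w : Finset V → K, w ∈ TT K G s' i β →
        ext x w - ext x₀ w ∈ TT K G (s' + 1) (i + 1) (β + dl r) := by
      intro x hx w hw
      refine Submodule.span_induction (p := fun w _ =>
        ext x w - ext x₀ w ∈ TT K G (s' + 1) (i + 1) (β + dl r)) ?_ ?_ ?_ ?_ hw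
      · rintro w ⟨b', u, v, huv, rfl, hw1, hw2⟩
        refine Submodule.subset_span ⟨b' + dl r, u, v, huv, ?_, ?_, ?_⟩
        · funext t; simp only [Pi.add_apply]; omega
        · intro τ hτ
          have hex : ∃ x' ∈ N, ext x' w τ ≠ 0 := by
            by_contra hcon
            push Not at hcon
            apply hτ
            rw [Pi.sub_apply, hcon x hx, hcon x₀ hx₀N, sub_zero]
          obtain ⟨x', hx', h3⟩ := hex
          have hxτ : x' ∈ τ := by
            by_contra h
            exact h3 (ext_of_notMem _ h)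
          rw [ext_of_mem _ hxτ] at h3
          obtain ⟨h4, h5⟩ := hw1 _ (right_ne_zero_of_mul h3)
          rw [card_erase_of_mem hxτ] at h4
          have := card_pos.mpr ⟨x', hxτ⟩
          refine ⟨by omega, (h5.add (hNr x' hx')).cast ?_⟩
          rw [← insert_erase hxτ, add_ind_insert _ (notMem_erase x' τ),
            erase_insert (notMem_erase x' τ), add_right_comm b']
        · rw [map_sub, bd_ext, bd_ext, hw2, map_zero, map_zero]; simp
      · simp only [map_zero, sub_zero]; exact Submodule.zero_mem _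
      · intro w₁ w₂ _ _ h1 h2
        have : ext x (w₁ + w₂) - ext x₀ (w₁ + w₂) =
            (ext x w₁ - ext x₀ w₁) + (ext x w₂ - ext x₀ w₂) := by
          rw [map_add, map_add]; abel
        rw [this]
        exact Submodule.add_mem _ h1 h2
      · intro a w _ h1
        rw [map_smul, map_smul, ← smul_sub]
        exact Submodule.smul_mem _ _ h1
    have hsumw : ∑ x ∈ N, bd (f x) = 0 := by
      rw [← map_sum, ← hf, hz.2]
    have hdecomp : z = ∑ x ∈ N, (f x - ext x (bd (f x))) +
        ∑ x ∈ N, (ext x (bd (f x)) - ext x₀ (bd (f x))) := by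
      rw [← sum_add_distrib]
      have : ∀ x ∈ N, f x - ext x (bd (f x)) + (ext x (bd (f x)) - ext x₀ (bd (f x))) =
          f x - ext x₀ (bd (f x)) := by
        intro x _; abel
      rw [sum_congr rfl this, sum_sub_distrib, ← map_sum, hsumw, map_zero, sub_zero]
      exact hf
    rw [hdecomp]
    refine Submodule.add_mem _ (Submodule.sum_mem _ hy) (Submodule.sum_mem _ fun x hx => ?_)
    refine hz2 x hx _ (ih s' β _ (by omega) (by omega) (hw x hx))

end Pool.Agent.Lib.MP_97fe03_al
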